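import Mathlib

/-! Coordinates (in the style of Zelenyuk) on countable topological groups. -/

set_option linter.unusedSectionVars false

open Set Filter Topology Pointwise

namespace H473

variable {G : Type*} [Group G] [TopologicalSpace G]

/-- product of letters -/
def el (lam : ℕ → G) (l : List ℕ) : G := (l.map lam).prod

@[simp] lemma el_nil (lam : ℕ → G) : el lam [] = 1 := rfl
@[simp] lemma el_cons (lam : ℕ → G) (m : ℕ) (l : List ℕ) : el lam (m :: l) = lam m * el lam l := by
  simp [el]
@[simp] lemma el_append (lam : ℕ → G) (l l' : List ℕ) : el lam (l ++ l') = el lam l * el lam l' := by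
  simp [el]

/-- last entry, with default -/
def last : ℕ → List ℕ → ℕ
  | n, [] => n
  | _, (m :: l) => last m l

@[simp] lemma last_nil (n : ℕ) : last n [] = n := rfl
@[simp] lemma last_cons (n m : ℕ) (l : List ℕ) : last n (m :: l) = last m l := rfl
@[simp] lemma last_append (n : ℕ) (l l' : List ℕ) : last n (l ++ l') = last (last n l) l' := by
  induction l generalizing n with
  | nil => rfl
  | cons m l ih => simp [ih]

lemma last_mem (n : ℕ) (l : List ℕ) : last n l = n ∨ last n l ∈ l := by
  induction l generalizing n with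
  | nil => simp
  | cons m l ih =>
    rcases ih m with h | h
    · right; simp [h]
    · right; simp [h]

lemma last_mem_of_ne {n : ℕ} {l : List ℕ} (h : l ≠ []) : last n l ∈ l := by
  cases l with
  | nil => exact absurd rfl h
  | cons m l =>
    rcases last_mem m l with h | h
    · simp [h]
    · simp [h]

lemma last_eq_of_ne {n n' : ℕ} {l : List ℕ} (h : l ≠ []) : last n l = last n' l := by
  cases l with
  | nil => exact absurd rfl h
  | cons m l => rfl

/-- validity of words -/
def Valid (lam : ℕ → G) (W : ℕ → Set G) : ℕ → List ℕ → Prop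
  | _, [] => True
  | n, (m :: l) => n < m ∧ lam m ≠ 1 ∧ lam m ∈ W n ∧ Valid lam W m l

lemma Valid_append {lam : ℕ → G} {W : ℕ → Set G} {n : ℕ} {l l' : List ℕ} :
    Valid lam W n (l ++ l') ↔ Valid lam W n l ∧ Valid lam W (last n l) l' := by
  induction l generalizing n with
  | nil => simp [Valid]
  | cons m l ih =>
    simp only [List.cons_append, Valid, ih, last_cons]
    tauto

lemma Valid_lt {lam : ℕ → G} {W : ℕ → Set G} {n : ℕ} {l : List ℕ} (h : Valid lam W n l) :
    ∀ m ∈ l, n < m := by
  induction l generalizing n with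
  | nil => simp
  | cons m l ih =>
    obtain ⟨h1, h2, h3, h4⟩ := h
    intro k hk
    rcases List.mem_cons.1 hk with rfl | hk
    · exact h1
    · exact lt_trans h1 (ih h4 k hk)

lemma Valid_sorted {lam : ℕ → G} {W : ℕ → Set G} {n : ℕ} {l : List ℕ} (h : Valid lam W n l) :
    l.Pairwise (· < ·) := by
  induction l generalizing n with
  | nil => simp
  | cons m l ih =>
    obtain ⟨h1, h2, h3, h4⟩ := h
    exact List.pairwise_cons.2 ⟨Valid_lt h4, ih h4⟩

lemma Valid_congr {lam lam' : ℕ → G} {W W' : ℕ → Set G} {M : ℕ} (h1 : ∀ i < M, lam i = lam' i)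
    (h2 : ∀ i < M, W i = W' i) {n : ℕ} {l : List ℕ} (hn : n < M) (hl : ∀ i ∈ l, i < M) :
    Valid lam W n l → Valid lam' W' n l := by
  induction l generalizing n with
  | nil => simp [Valid]
  | cons m l ih =>
    rintro ⟨a, b, c, d⟩
    have hm : m < M := hl m (by simp)
    refine ⟨a, ?_, ?_, ih hm (fun i hi => hl i (by simp [hi])) d⟩
    · rwa [← h1 m hm]
    · rwa [← h1 m hm, ← h2 n hn]

lemma el_congr {lam lam' : ℕ → G} {M : ℕ} (h1 : ∀ i < M, lam i = lam' i)
    {l : List ℕ} (hl : ∀ i ∈ l, i < M) : el lam l = el lam' l := by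
  unfold el
  congr 1
  exact List.map_congr_left (fun i hi => h1 i (hl i hi))

/-- A recursion principle with history. -/
lemma exists_hist {α : Type*} [Inhabited α] (R : ℕ → (ℕ → α) → α → Prop)
    (hcongr : ∀ m s s' a, (∀ i < m, s i = s' i) → R m s a → R m s' a)
    (hstep : ∀ m s, (∀ i < m, R i s (s i)) → ∃ a, R m s a) :
    ∃ s : ℕ → α, ∀ m, R m s (s m) := by
  classical
  -- extension of a partial function
  let ext : (m : ℕ) → ((i : ℕ) → i < m → α) → ℕ → α :=
    fun m f i => if h : i < m then f i h else default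
  let s : ℕ → α := fun m => Nat.strongRec (motive := fun _ => α)
    (fun m f => if h : ∃ a, R m (ext m f) a then h.choose else default) m
  have hs : ∀ m, s m = if h : ∃ a, R m (ext m (fun i _ => s i)) a then h.choose else default := by
    intro m
    have := Nat.strongRec_eq (motive := fun _ => α)
      (fun m f => if h : ∃ a, R m (ext m f) a then h.choose else default) m
    exact this
  refine ⟨s, ?_⟩
  intro m
  induction m using Nat.strong_induction_on with
  | _ m ih =>
    have e : ∀ i < m, s i = ext m (fun i _ => s i) i := by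
      intro i hi
      simp [ext, hi]
    obtain ⟨a, ha⟩ := hstep m s ih
    have ha' := hcongr m s _ a e ha
    have hex : ∃ a, R m (ext m (fun i _ => s i)) a := ⟨a, ha'⟩
    rw [hs m, dif_pos hex]
    exact hcongr m _ s _ (fun i hi => (e i hi).symm) hex.choose_spec

/-- the relation between the history `s` and the new pair `(letter, neighbourhood)`. -/
structure Step (g : ℕ → G) (U : G → Set G) (V : ℕ → Set G) (m : ℕ) (s : ℕ → G × Set G)
    (a : G × Set G) : Prop where
  zero : m = 0 → a = (1, univ)
  clopen : IsClopen a.2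
  one_mem : (1 : G) ∈ a.2
  sub : ∀ i < m, a.2 ⊆ (s i).2
  cell_disj : a.1 ≠ 1 → ∀ i < m, (s i).1 ≠ 1 →
    ∀ x, (s i).1⁻¹ * x ∈ (s i).2 → a.1⁻¹ * x ∈ a.2 → False
  cell_in : a.1 ≠ 1 → ∀ n < m, a.1 ∈ (s n).2 → ∀ x, a.1⁻¹ * x ∈ a.2 → x ∈ (s n).2
  cell_out : a.1 ≠ 1 → ∀ n < m, a.1 ∉ (s n).2 → ∀ x, a.1⁻¹ * x ∈ a.2 → x ∉ (s n).2
  cell_self : a.1 ≠ 1 → ∀ x, a.1⁻¹ * x ∈ a.2 → x ∉ a.2
  V_sub : a.2 ⊆ V m
  U_sub : ∀ l ∈ (List.range m).sublists, a.2 ⊆ U (el (fun i => (s i).1) l * a.1)
  dec : 0 < m → ∃ l, Valid (fun i => (s i).1) (fun i => (s i).2) 0 l ∧ (∀ i ∈ l, i < m) ∧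
    el (fun i => (s i).1) l * a.1 = g (m - 1) ∧ a.1 ∈ (s (last 0 l)).2

lemma mem_of_mem_sublists_range {m : ℕ} {l : List ℕ} (h : l ∈ (List.range m).sublists) :
    ∀ i ∈ l, i < m := by
  intro i hi
  have := (List.mem_sublists.1 h).subset hi
  exact List.mem_range.1 this

lemma Step_congr (g : ℕ → G) (U : G → Set G) (V : ℕ → Set G) (m : ℕ) (s s' : ℕ → G × Set G)
    (a : G × Set G) (h : ∀ i < m, s i = s' i) (H : Step g U V m s a) : Step g U V m s' a := by
  constructor
  · exact H.zero
  · exact H.clopen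
  · exact H.one_mem
  · intro i hi; rw [← h i hi]; exact H.sub i hi
  · intro ha i hi; rw [← h i hi]; exact H.cell_disj ha i hi
  · intro ha i hi; rw [← h i hi]; exact H.cell_in ha i hi
  · intro ha i hi; rw [← h i hi]; exact H.cell_out ha i hi
  · exact H.cell_self
  · exact H.V_sub
  · intro l hl
    rw [← el_congr (M := m) (lam := fun i => (s i).1) (fun i hi => by simp [h i hi])
      (mem_of_mem_sublists_range hl)]
    exact H.U_sub l hl
  · intro hm
    obtain ⟨l, h1, h2, h3, h4⟩ := H.dec hm
    refine ⟨l, Valid_congr (M := m) (fun i hi => by simp [h i hi]) (fun i hi => by simp [h i hi]) hm h2 h1,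
      h2, ?_, ?_⟩
    · rw [← h3]
      congr 1
      exact (el_congr (M := m) (fun i hi => by simp [h i hi]) h2).symm
    · have : last 0 l < m := by
        rcases last_mem 0 l with h | h
        · omega
        · exact h2 _ h
      rw [← h _ this]; exact h4


lemma exists_step [IsTopologicalGroup G] [T2Space G]
    (hb : ∀ s ∈ 𝓝 (1:G), ∃ O ⊆ s, IsClopen O ∧ (1:G) ∈ O)
    (g : ℕ → G) (U : G → Set G) (V : ℕ → Set G)
    (hU : ∀ x, U x ∈ 𝓝 (1:G)) (hU1 : U 1 = univ) (hV : ∀ n, V n ∈ 𝓝 (1:G)) (hV0 : V 0 = univ)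
    (m : ℕ) (s : ℕ → G × Set G) (H : ∀ i < m, Step g U V i s (s i)) :
    ∃ a, Step g U V m s a := by
  classical
  rcases Nat.eq_zero_or_pos m with rfl | hm
  · refine ⟨(1, univ), ?_⟩
    constructor
    · intro _; rfl
    · exact isClopen_univ
    · trivial
    · intro i hi; omega
    · intro h; exact absurd rfl h
    · intro h; exact absurd rfl h
    · intro h; exact absurd rfl h
    · intro h; exact absurd rfl h
    · rw [hV0]
    · intro l hl
      simp only [List.range_zero, List.sublists_nil, List.mem_singleton] at hl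
      subst hl
      simp [hU1]
    · intro h; omega
  -- the residual
  have h0 : s 0 = (1, univ) := (H 0 hm).zero rfl
  set lam : ℕ → G := fun i => (s i).1 with hlam
  set W : ℕ → Set G := fun i => (s i).2 with hW
  have key : ∀ j ≤ m, ∃ l r, Valid lam W 0 l ∧ (∀ i ∈ l, i < j) ∧ el lam l * r = g (m-1) ∧
      r ∈ W (last 0 l) ∧ ∀ i < j, lam i ≠ 1 → (lam i)⁻¹ * r ∉ W i := by
    intro j
    induction j with
    | zero =>
      intro _
      refine ⟨[], g (m-1), trivial, by simp, by simp, ?_, by simp⟩
      simp [hW, h0]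
    | succ j ih =>
      intro hj
      obtain ⟨l, r, h1, h2, h3, h4, h5⟩ := ih (by omega)
      by_cases hc : lam j ≠ 1 ∧ (lam j)⁻¹ * r ∈ W j
      · obtain ⟨hc1, hc2⟩ := hc
        have hj0 : 0 < j := by
          rcases Nat.eq_zero_or_pos j with rfl | h
          · exact absurd (by simp [hlam, h0]) hc1
          · exact h
        have hlast : last 0 l < j := by
          rcases last_mem 0 l with h | h
          · omega
          · exact h2 _ h
        refine ⟨l ++ [j], (lam j)⁻¹ * r, ?_, ?_, ?_, ?_, ?_⟩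
        · rw [Valid_append]
          refine ⟨h1, hlast, hc1, ?_, trivial⟩
          by_contra hcon
          exact (H j (by omega)).cell_out hc1 (last 0 l) hlast hcon r hc2 h4
        · intro i hi
          rcases List.mem_append.1 hi with hi | hi
          · have := h2 i hi; omega
          · simp at hi; omega
        · rw [el_append, ← h3]; simp
        · rw [last_append]; exact hc2
        · intro i hi hi1 hcon
          have hs := (H i (by omega)).cell_self hi1 _ hcon
          apply hs
          rcases Nat.lt_succ_iff_lt_or_eq.1 hi with h | h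
          · exact (H j (by omega)).sub i h hc2
          · subst h; exact hc2
      · refine ⟨l, r, h1, fun i hi => by have := h2 i hi; omega, h3, h4, ?_⟩
        intro i hi hi1
        rcases Nat.lt_succ_iff_lt_or_eq.1 hi with h | h
        · exact h5 i h hi1
        · subst h
          intro hcon
          exact hc ⟨hi1, hcon⟩
  obtain ⟨l0, r, h1, h2, h3, h4, h5⟩ := key m le_rfl
  -- the neighbourhood
  have E1 : ∀ᶠ y in 𝓝 (1:G), ∀ i ∈ Finset.range m, y ∈ W i := by
    rw [Filter.eventually_all_finset]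
    intro i hi
    have := H i (Finset.mem_range.1 hi)
    exact this.clopen.isOpen.mem_nhds this.one_mem
  have E2 : ∀ᶠ y in 𝓝 (1:G), y ∈ V m := hV m
  have E3 : ∀ᶠ y in 𝓝 (1:G), ∀ l ∈ {l : List ℕ | l ∈ (List.range m).sublists}, y ∈ U (el lam l * r) := by
    rw [Filter.eventually_all_finite (List.finite_toSet _)]
    intro l _
    exact hU _
  have cont1 : ∀ c : G, Tendsto (fun y : G => c * y) (𝓝 1) (𝓝 c) := by
    intro c
    have : ContinuousAt (fun y : G => c * y) 1 := by fun_prop
    have h := this.tendsto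
    simpa using h
  have E4 : ∀ᶠ y in 𝓝 (1:G), ∀ i ∈ Finset.range m, r ≠ 1 → lam i ≠ 1 → (lam i)⁻¹ * (r * y) ∉ W i := by
    rw [Filter.eventually_all_finset]
    intro i hi
    have hi' := Finset.mem_range.1 hi
    by_cases hl : lam i ≠ 1
    · have ho : IsOpen (W i)ᶜ := (H i hi').clopen.compl.isOpen
      have hmem : (lam i)⁻¹ * r ∈ (W i)ᶜ := h5 i hi' hl
      have := (cont1 ((lam i)⁻¹ * r)).eventually (ho.mem_nhds hmem)
      filter_upwards [this] with y hy _ _
      simpa [mul_assoc] using hy
    · exact Filter.Eventually.of_forall (fun y _ h => absurd h hl)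
  have E5 : ∀ᶠ y in 𝓝 (1:G), ∀ i ∈ Finset.range m, (r ∈ W i → r * y ∈ W i) ∧ (r ∉ W i → r * y ∉ W i) := by
    rw [Filter.eventually_all_finset]
    intro i hi
    have hi' := Finset.mem_range.1 hi
    by_cases hr : r ∈ W i
    · have ho : IsOpen (W i) := (H i hi').clopen.isOpen
      filter_upwards [(cont1 r).eventually (ho.mem_nhds hr)] with y hy
      exact ⟨fun _ => hy, fun h => absurd hr h⟩
    · have ho : IsOpen (W i)ᶜ := (H i hi').clopen.compl.isOpen
      filter_upwards [(cont1 r).eventually (ho.mem_nhds hr)] with y hy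
      exact ⟨fun h => absurd h hr, fun _ => hy⟩
  have E7 : ∃ O ∈ 𝓝 (1:G), r ≠ 1 → ∀ y ∈ O, ∀ z ∈ O, r * y ≠ z := by
    by_cases hr : r = 1
    · exact ⟨univ, univ_mem, fun h => absurd hr h⟩
    · obtain ⟨A, B, hA, hB, hrA, h1B, hAB⟩ := t2_separation hr
      refine ⟨B ∩ {y | r * y ∈ A}, inter_mem (hB.mem_nhds h1B) ((cont1 r).eventually (hA.mem_nhds hrA)), ?_⟩
      rintro _ y ⟨_, hy⟩ z ⟨hz, _⟩ rfl
      exact (Set.disjoint_left.1 hAB) hy hz
  obtain ⟨O1, hO1, hO1'⟩ := E7
  obtain ⟨O, hO, hOc, hO1mem⟩ := hb _ (inter_mem (inter_mem (inter_mem (inter_mem (inter_mem E1 E2) E3) E4) E5) hO1)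
  have hrw : ∀ x : G, r⁻¹ * x ∈ O → x = r * (r⁻¹ * x) := by intro x _; simp
  refine ⟨(r, O), ?_⟩
  constructor
  · intro h; omega
  · exact hOc
  · exact hO1mem
  · intro i hi y hy
    exact (hO hy).1.1.1.1.1 i (Finset.mem_range.2 hi)
  · intro ha i hi hi1 x hx1 hx2
    have := (hO hx2).1.1.2 i (Finset.mem_range.2 hi) ha hi1
    apply this
    rwa [← hrw x hx2]
  · intro ha n hn hin x hx
    have := ((hO hx).1.2 n (Finset.mem_range.2 hn)).1 hin
    rwa [← hrw x hx] at this
  · intro ha n hn hin x hx
    have := ((hO hx).1.2 n (Finset.mem_range.2 hn)).2 hin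
    rwa [← hrw x hx] at this
  · intro ha x hx hx2
    exact hO1' ha _ (hO hx).2 _ (hO hx2).2 (by simp)
  · intro y hy
    exact (hO hy).1.1.1.1.2
  · intro l hl y hy
    exact (hO hy).1.1.1.2 l hl
  · intro _
    exact ⟨l0, h1, h2, h3, h4⟩


/-- A coordinate system adapted to neighbourhoods `U x` and `V n`. -/
structure Coord (U : G → Set G) (V : ℕ → Set G) where
  W : ℕ → Set G
  lam : ℕ → G
  wd : G → List ℕ
  W_nhds : ∀ n, W n ∈ 𝓝 (1:G)
  W_anti : ∀ m n, m ≤ n → W n ⊆ W m
  W_zero : W 0 = univ
  el_wd : ∀ g, el lam (wd g) = g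
  wd_one : wd 1 = []
  app : ∀ x y, y ∈ W (last 0 (wd x)) → wd (x * y) = wd x ++ wd y
  dec : ∀ g l l', wd g = l ++ l' → wd (el lam l) = l ∧ wd (el lam l') = l' ∧ el lam l' ∈ W (last 0 l)
  lt : ∀ n, ∀ y ∈ W n, ∀ m ∈ wd y, n < m
  sorted : ∀ g, (wd g).Pairwise (· < ·)
  U_sub : ∀ x, W (last 0 (wd x)) ⊆ U x
  V_sub : ∀ n, W n ⊆ V n

theorem exists_coord [Countable G] [IsTopologicalGroup G] [T2Space G]
    (hb : ∀ s ∈ 𝓝 (1:G), ∃ O ⊆ s, IsClopen O ∧ (1:G) ∈ O)
    (U : G → Set G) (V : ℕ → Set G)
    (hU : ∀ x, U x ∈ 𝓝 (1:G)) (hU1 : U 1 = univ) (hV : ∀ n, V n ∈ 𝓝 (1:G)) (hV0 : V 0 = univ) :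
    Nonempty (Coord U V) := by
  classical
  obtain ⟨g, hg⟩ := exists_surjective_nat G
  have : Inhabited (G × Set G) := ⟨(1, univ)⟩
  obtain ⟨s, hs⟩ := exists_hist (fun m s a => Step g U V m s a)
    (fun m s s' a h H => Step_congr g U V m s s' a h H)
    (fun m s H => exists_step hb g U V hU hU1 hV hV0 m s H)
  set lam : ℕ → G := fun i => (s i).1 with hlam
  set W : ℕ → Set G := fun i => (s i).2 with hW
  have h0 : s 0 = (1, univ) := (hs 0).zero rfl
  have hlam0 : lam 0 = 1 := by simp [hlam, h0]
  have hanti : ∀ m n, m ≤ n → W n ⊆ W m := by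
    intro m n hmn
    rcases Nat.lt_or_eq_of_le hmn with h | h
    · exact (hs n).sub m h
    · subst h; exact subset_rfl
  have A1 : ∀ n l, Valid lam W n l → el lam l ∈ W n := by
    intro n l
    induction l generalizing n with
    | nil => intro _; exact (hs n).one_mem
    | cons m l ih =>
      rintro ⟨a, b, c, d⟩
      rw [el_cons]
      refine (hs m).cell_in b n a c _ ?_
      have e : (s m).1⁻¹ * (lam m * el lam l) = el lam l := inv_mul_cancel_left _ _
      rw [e]; exact ih m d
  have A2 : ∀ n l, Valid lam W 0 l → el lam l ∈ W n → Valid lam W n l := by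
    intro n l
    cases l with
    | nil => intro _ _; trivial
    | cons m l =>
      rintro ⟨a, b, c, d⟩ h
      rw [el_cons] at h
      have hcell : (s m).1⁻¹ * (lam m * el lam l) ∈ (s m).2 := by
        have e : (s m).1⁻¹ * (lam m * el lam l) = el lam l := inv_mul_cancel_left _ _
        rw [e]; exact A1 m l d
      have hnm : n < m := by
        by_contra hcon
        exact (hs m).cell_self b _ hcell (hanti m n (by omega) h)
      refine ⟨hnm, b, ?_, d⟩
      by_contra hcon
      exact (hs m).cell_out b n hnm hcon _ hcell h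
  have A3 : ∀ l l' n, Valid lam W n l → Valid lam W n l' → el lam l = el lam l' → l = l' := by
    intro l
    induction l with
    | nil =>
      intro l' n _ h' he
      cases l' with
      | nil => rfl
      | cons m l' =>
        exfalso
        obtain ⟨a, b, c, d⟩ := h'
        rw [el_cons, el_nil] at he
        have hcell : (s m).1⁻¹ * (1:G) ∈ (s m).2 := by
          have e : (s m).1⁻¹ * (lam m * el lam l') = el lam l' := inv_mul_cancel_left _ _
          rw [he, e]; exact A1 m l' d
        exact (hs m).cell_self b _ hcell (hs m).one_mem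
    | cons k l ih =>
      intro l' n h h' he
      obtain ⟨a, b, c, d⟩ := h
      have hcellk : (s k).1⁻¹ * (el lam (k :: l)) ∈ (s k).2 := by
        have e : (s k).1⁻¹ * (lam k * el lam l) = el lam l := inv_mul_cancel_left _ _
        rw [el_cons, e]; exact A1 k l d
      cases l' with
      | nil =>
        exfalso
        rw [he] at hcellk
        exact (hs k).cell_self b _ hcellk (hs k).one_mem
      | cons m l' =>
        obtain ⟨a', b', c', d'⟩ := h'
        have hcellm : (s m).1⁻¹ * (el lam (m :: l')) ∈ (s m).2 := by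
          have e : (s m).1⁻¹ * (lam m * el lam l') = el lam l' := inv_mul_cancel_left _ _
          rw [el_cons, e]; exact A1 m l' d'
        rw [← he] at hcellm
        have hkm : k = m := by
          rcases lt_trichotomy k m with h | h | h
          · exact ((hs m).cell_disj b' k h b _ hcellk hcellm).elim
          · exact h
          · exact ((hs k).cell_disj b m h b' _ hcellm hcellk).elim
        subst hkm
        rw [el_cons, el_cons] at he
        rw [ih l' k d d' (mul_left_cancel he)]
  have A4 : ∀ x, ∃ l, Valid lam W 0 l ∧ el lam l = x := by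
    intro x
    obtain ⟨k, rfl⟩ := hg x
    obtain ⟨l, h1, h2, h3, h4⟩ := (hs (k+1)).dec (by omega)
    by_cases h : lam (k+1) = 1
    · refine ⟨l, h1, ?_⟩
      have : (s (k+1)).1 = 1 := h
      rw [this] at h3
      simpa using h3
    · refine ⟨l ++ [k+1], ?_, ?_⟩
      · rw [Valid_append]
        refine ⟨h1, ?_, h, h4, trivial⟩
        rcases last_mem 0 l with h | h
        · omega
        · exact h2 _ h
      · rw [el_append]; simpa using h3
  choose wd hwd1 hwd2 using A4
  have uniq : ∀ l x, Valid lam W 0 l → el lam l = x → wd x = l := by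
    intro l x h1 h2
    exact A3 _ _ 0 (hwd1 x) h1 (by rw [hwd2, h2])
  refine ⟨{ W := W, lam := lam, wd := wd, W_nhds := ?_, W_anti := hanti, W_zero := ?_, el_wd := hwd2,
            wd_one := ?_, app := ?_, dec := ?_, lt := ?_, sorted := ?_, U_sub := ?_, V_sub := ?_ }⟩
  · intro n; exact (hs n).clopen.isOpen.mem_nhds (hs n).one_mem
  · simp [hW, h0]
  · exact uniq [] 1 trivial rfl
  · intro x y hy
    apply uniq
    · rw [Valid_append]
      exact ⟨hwd1 x, A2 _ _ (hwd1 y) (by rwa [hwd2])⟩
    · rw [el_append, hwd2, hwd2]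
  · intro x l l' h
    have hv := hwd1 x
    rw [h, Valid_append] at hv
    obtain ⟨hv1, hv2⟩ := hv
    have hmem := A1 _ _ hv2
    refine ⟨uniq l _ hv1 rfl, uniq l' _ ?_ rfl, hmem⟩
    cases l' with
    | nil => trivial
    | cons m l' =>
      obtain ⟨a, b, c, d⟩ := hv2
      exact ⟨by omega, b, by simp [hW, h0], d⟩
  · intro n y hy m hm
    exact Valid_lt (A2 n _ (hwd1 y) (by rwa [hwd2])) m hm
  · intro x; exact Valid_sorted (hwd1 x)
  · intro x
    rcases List.eq_nil_or_concat (wd x) with h | ⟨l, m, h⟩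
    · have hx : x = 1 := by rw [← hwd2 x, h]; rfl
      rw [hx, hU1]; exact subset_univ _
    · rw [List.concat_eq_append] at h
      have hsort := Valid_sorted (hwd1 x)
      rw [h] at hsort
      have hlt : ∀ i ∈ l, i < m := by
        intro i hi
        exact (List.pairwise_append.1 hsort).2.2 i hi m (by simp)
      have hsub : l.Sublist (List.range m) := by
        have h1 : l.Pairwise (· < ·) := (List.pairwise_append.1 hsort).1
        refine List.sublist_of_subperm_of_pairwise ?_ h1 ?_
        · refine List.subperm_of_subset ?_ ?_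
          · exact h1.imp (fun h => ne_of_lt h)
          · intro i hi; exact List.mem_range.2 (hlt i hi)
        · exact List.pairwise_lt_range
      have := (hs m).U_sub l (List.mem_sublists.2 hsub)
      have hx : x = el lam l * lam m := by rw [← hwd2 x, h]; simp
      rw [h, last_append]
      simp only [last_cons, last_nil]
      rw [hx]
      exact this
  · intro n; exact (hs n).V_sub

end H473
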