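import Mathlib
import Pool.Agent.Helper473.Coord

/-! Locally homogeneous closed sets and nowhere dense germs. -/

set_option linter.unusedSectionVars false

open Set Filter Topology Pointwise

namespace H473

variable {G : Type*} [Group G] [TopologicalSpace G]

/-- no partition into two dense sets -/
def NoRes (G : Type*) [TopologicalSpace G] : Prop := ¬ ∃ A : Set G, Dense A ∧ Dense Aᶜ

/-- clopen neighbourhoods of the identity form a base -/
def ClBase (G : Type*) [Group G] [TopologicalSpace G] : Prop :=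
  ∀ s ∈ 𝓝 (1:G), ∃ O ⊆ s, IsClopen O ∧ (1:G) ∈ O

structure LH (F : Set G) : Prop where
  one_mem : (1:G) ∈ F
  closed : IsClosed F
  hom : ∀ x ∈ F, ∀ᶠ y in 𝓝 (1:G), (x * y ∈ F ↔ y ∈ F)

structure ClNwd (F A : Set G) : Prop where
  closed : IsClosed A
  sub : A ⊆ F
  dense : ∀ x ∈ F, ∃ᶠ y in 𝓝 (1:G), x * y ∈ F ∧ x * y ∉ A

variable [IsTopologicalGroup G]

lemma tends_mul (c : G) : Tendsto (fun y : G => c * y) (𝓝 1) (𝓝 c) := by
  have : ContinuousAt (fun y : G => c * y) 1 := by fun_prop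
  have h := this.tendsto
  simpa using h

lemma ev_open {O : Set G} (hO : IsOpen O) {x : G} (hx : x ∈ O) : ∀ᶠ y in 𝓝 (1:G), x * y ∈ O :=
  (tends_mul x).eventually (hO.mem_nhds hx)

lemma ev_compl {F : Set G} (hF : IsClosed F) {x : G} (hx : x ∉ F) : ∀ᶠ y in 𝓝 (1:G), x * y ∉ F :=
  ev_open hF.isOpen_compl hx

lemma freq_of_one {P : G → Prop} (h : P 1) : ∃ᶠ y in 𝓝 (1:G), P y := by
  intro hcon
  exact hcon.self_of_nhds h

/-- combining two frequently statements -/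
lemma freq_mul {P Q : G → Prop} (h1 : ∃ᶠ y in 𝓝 (1:G), P y)
    (h2 : ∀ y, P y → ∃ᶠ w in 𝓝 (1:G), Q (y * w)) : ∃ᶠ y in 𝓝 (1:G), Q y := by
  rw [Filter.frequently_iff] at h1 ⊢
  intro U hU
  obtain ⟨O, hOU, hO, h1O⟩ := mem_nhds_iff.1 hU
  obtain ⟨y, hy, hPy⟩ := h1 (hO.mem_nhds h1O)
  have h3 := h2 y hPy
  rw [Filter.frequently_iff] at h3
  obtain ⟨w, hw, hQw⟩ := h3 (ev_open hO hy)
  exact ⟨y * w, hOU hw, hQw⟩

lemma LH.inter {F O : Set G} (hF : LH F) (hO : IsClopen O) (h1 : (1:G) ∈ O) : LH (F ∩ O) := by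
  refine ⟨⟨hF.one_mem, h1⟩, hF.closed.inter hO.isClosed, ?_⟩
  rintro x ⟨hx, hxO⟩
  filter_upwards [hF.hom x hx, ev_open hO.isOpen hxO, hO.isOpen.mem_nhds h1] with y h1 h2 h3
  simp only [mem_inter_iff]
  tauto

theorem res_of_LH [Countable G] {F : Set G} (hF : LH F) (A : Set G)
    (h : ∀ x ∈ F, ∃ᶠ y in 𝓝 (1:G), x * y ∈ F ∧ (x * y ∈ A ↔ x ∉ A)) :
    ∃ B : Set G, Dense B ∧ Dense Bᶜ := by
  classical
  obtain ⟨g, hg⟩ := exists_surjective_nat G
  have hex : ∀ x, ∃ n, (g n)⁻¹ * x ∈ F := by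
    intro x
    obtain ⟨n, hn⟩ := hg x
    exact ⟨n, by rw [hn]; simpa using hF.one_mem⟩
  let B : Set G := {x | (g (Nat.find (hex x)))⁻¹ * x ∈ A}
  have key : ∀ x, ∃ᶠ y in 𝓝 (1:G), (x * y ∈ B ↔ x ∉ B) := by
    intro x
    set n := Nat.find (hex x) with hn
    have hnF : (g n)⁻¹ * x ∈ F := Nat.find_spec (hex x)
    have hmin : ∀ m < n, (g m)⁻¹ * x ∉ F := fun m hm => Nat.find_min (hex x) hm
    have hev : ∀ᶠ y in 𝓝 (1:G), ∀ m ∈ Finset.range n, (g m)⁻¹ * x * y ∉ F := by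
      rw [Filter.eventually_all_finset]
      intro m hm
      exact ev_compl hF.closed (hmin m (Finset.mem_range.1 hm))
    refine ((h _ hnF).and_eventually hev).mono ?_
    rintro y ⟨⟨hy1, hy2⟩, hy3⟩
    have hfind : Nat.find (hex (x * y)) = n := by
      rw [Nat.find_eq_iff]
      refine ⟨by rwa [← mul_assoc], ?_⟩
      intro m hm
      have := hy3 m (Finset.mem_range.2 hm)
      rwa [← mul_assoc]
    change (g (Nat.find (hex (x * y))))⁻¹ * (x * y) ∈ A ↔ ¬ ((g (Nat.find (hex x)))⁻¹ * x ∈ A)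
    rw [hfind, ← mul_assoc]
    exact hy2
  refine ⟨B, ?_, ?_⟩
  · intro x
    by_cases hx : x ∈ B
    · exact subset_closure hx
    · rw [mem_closure_iff_frequently, ← map_mul_left_nhds_one x]
      exact (key x).mono (fun y hy => hy.2 hx)
  · intro x
    by_cases hx : x ∈ B
    · rw [mem_closure_iff_frequently, ← map_mul_left_nhds_one x]
      exact (key x).mono (fun y hy hcon => (hy.1 hcon) hx)
    · exact subset_closure hx

theorem ir [Countable G] (hG : NoRes G) {F : Set G} (hF : LH F) (A : Set G) :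
    ∃ x ∈ F, ∀ᶠ y in 𝓝 (1:G), x * y ∈ F → (x * y ∈ A ↔ x ∈ A) := by
  by_contra hcon
  push Not at hcon
  apply hG
  apply res_of_LH hF A
  intro x hx
  refine (hcon x hx).mono ?_
  rintro y ⟨h1, h2⟩
  exact ⟨h1, by tauto⟩

theorem ir_dense [Countable G] (hb : ClBase G) (hG : NoRes G) {F : Set G} (hF : LH F) (A : Set G)
    {x : G} (hx : x ∈ F) : ∃ᶠ u in 𝓝 (1:G), x * u ∈ F ∧
      ∀ᶠ y in 𝓝 (1:G), x * u * y ∈ F → (x * u * y ∈ A ↔ x * u ∈ A) := by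
  rw [Filter.frequently_iff]
  intro U hU
  obtain ⟨O, hOs, hO, h1O⟩ := hb _ (inter_mem hU (hF.hom x hx))
  obtain ⟨u, ⟨huF, huO⟩, hu⟩ := ir hG (hF.inter hO h1O) {y | x * y ∈ A}
  have huF' : x * u ∈ F := (hOs huO).2.2 huF
  refine ⟨u, (hOs huO).1, huF', ?_⟩
  filter_upwards [hu, ev_open hO.isOpen huO] with y h1 h2 h3
  have : u * y ∈ F := (hOs h2).2.1 (by rwa [← mul_assoc])
  have h4 := h1 ⟨this, h2⟩
  simpa [mul_assoc] using h4

lemma ClNwd.union {F A B : Set G} (hA : ClNwd F A) (hB : ClNwd F B) : ClNwd F (A ∪ B) := by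
  refine ⟨hA.closed.union hB.closed, union_subset hA.sub hB.sub, ?_⟩
  intro x hx
  refine freq_mul (P := fun y => x * y ∈ F ∧ x * y ∉ A) (hA.dense x hx) ?_
  rintro y ⟨h1, h2⟩
  refine ((hB.dense _ h1).and_eventually (ev_compl hA.closed h2)).mono ?_
  rintro w ⟨⟨h3, h4⟩, h5⟩
  rw [mul_assoc] at h3 h4 h5
  exact ⟨h3, fun h => h.elim h5 h4⟩

lemma crowded {F : Set G} (hF : LH F) (hcr : ∃ᶠ y in 𝓝 (1:G), y ∈ F ∧ y ≠ 1) {x : G} (hx : x ∈ F) :
    ∃ᶠ y in 𝓝 (1:G), x * y ∈ F ∧ y ≠ 1 := by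
  refine (hcr.and_eventually (hF.hom x hx)).mono ?_
  rintro y ⟨⟨h1, h2⟩, h3⟩
  exact ⟨h3.2 h1, h2⟩

lemma ClNwd.singleton [T1Space G] {F : Set G} (hF : LH F) (hcr : ∃ᶠ y in 𝓝 (1:G), y ∈ F ∧ y ≠ 1)
    {x : G} (hx : x ∈ F) : ClNwd F {x} := by
  refine ⟨isClosed_singleton, by simpa using hx, ?_⟩
  intro z hz
  by_cases hzx : z = x
  · subst hzx
    refine (crowded hF hcr hz).mono ?_
    rintro y ⟨h1, h2⟩
    exact ⟨h1, by simpa using h2⟩
  · apply freq_of_one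
    simp [hz, hzx]

lemma ClNwd.empty {F : Set G} : ClNwd F ∅ :=
  ⟨isClosed_empty, empty_subset _, fun x hx => freq_of_one (by simp [hx])⟩

lemma ClNwd.pull (hb : ClBase G) {F A : Set G} (hF : LH F) (hA : ClNwd F A) {x : G} (hx : x ∈ F) :
    ∃ O : Set G, IsClopen O ∧ (1:G) ∈ O ∧ ClNwd F {y | y ∈ O ∧ x * y ∈ A} := by
  obtain ⟨O, hOs, hO, h1O⟩ := hb _ (hF.hom x hx)
  refine ⟨O, hO, h1O, ?_, ?_, ?_⟩
  · exact hO.isClosed.inter (hA.closed.preimage (continuous_const_mul x))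
  · rintro y ⟨h1, h2⟩
    exact (hOs h1).1 (hA.sub h2)
  · intro z hz
    by_cases hzO : z ∈ O
    · have hxz : x * z ∈ F := (hOs hzO).2 hz
      refine ((hA.dense _ hxz).and_eventually (ev_open hO.isOpen hzO)).mono ?_
      rintro w ⟨⟨h1, h2⟩, h3⟩
      rw [mul_assoc] at h1 h2
      exact ⟨(hOs h3).1 h1, fun h => h2 h.2⟩
    · apply freq_of_one
      simp [hz, hzO]

lemma ClNwd.push (hb : ClBase G) {F A : Set G} (hF : LH F) (hA : ClNwd F A) {x : G} (hx : x ∈ F) :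
    ∃ O : Set G, IsClopen O ∧ (1:G) ∈ O ∧ ClNwd F {z | x⁻¹ * z ∈ O ∧ x⁻¹ * z ∈ A} := by
  obtain ⟨O, hOs, hO, h1O⟩ := hb _ (hF.hom x hx)
  refine ⟨O, hO, h1O, ?_, ?_, ?_⟩
  · exact (hO.isClosed.preimage (continuous_const_mul x⁻¹)).inter
      (hA.closed.preimage (continuous_const_mul x⁻¹))
  · rintro z ⟨h1, h2⟩
    have := (hOs h1).2 (hA.sub h2)
    simpa using this
  · intro z hz
    by_cases hzO : x⁻¹ * z ∈ O
    · have ha : x⁻¹ * z ∈ F := (hOs hzO).1 (by simpa using hz)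
      refine ((hA.dense _ ha).and_eventually (ev_open hO.isOpen hzO)).mono ?_
      rintro w ⟨⟨h1, h2⟩, h3⟩
      rw [mul_assoc] at h1 h2 h3
      have := (hOs h3).2 h1
      refine ⟨by simpa using this, fun h => h2 h.2⟩
    · apply freq_of_one
      simp [hz, hzO]

end H473
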