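import Mathlib
import Pool.Agent.Helper473.LocSub

/-! There is no infinite chain of closed locally homogeneous sets. -/

set_option linter.unusedSectionVars false

open Set Filter Topology Pointwise

namespace H473

variable {G : Type*} [Group G] [TopologicalSpace G] [IsTopologicalGroup G]

open Classical in
/-- counting positions with a property of (letter, rest) -/
noncomputable def ct (q : ℕ → List ℕ → Prop) : List ℕ → ℕ
  | [] => 0
  | (m :: l) => (if q m l then 1 else 0) + ct q l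

lemma ct_append (q q' : ℕ → List ℕ → Prop) (l l' : List ℕ)
    (h : ∀ a m b, l = a ++ m :: b → (q m (b ++ l') ↔ q' m b)) :
    ct q (l ++ l') = ct q' l + ct q l' := by
  induction l with
  | nil => simp [ct]
  | cons m l ih =>
    have h1 := h [] m l rfl
    have h2 := ih (fun a k b hab => h (m :: a) k b (by rw [hab]; rfl))
    simp only [List.cons_append, ct, h2]
    by_cases hq : q' m l
    · rw [if_pos hq, if_pos (h1.2 hq)]; ring
    · rw [if_neg hq, if_neg (fun h => hq (h1.1 h))]; ring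

lemma ct_congr (q q' : ℕ → List ℕ → Prop) (l : List ℕ)
    (h : ∀ a m b, l = a ++ m :: b → (q m b ↔ q' m b)) :
    ct q l = ct q' l := by
  have := ct_append q q' l [] (fun a m b hab => by rw [List.append_nil]; exact h a m b hab)
  simpa [ct] using this

theorem no_chain [Countable G] [T2Space G] (hb : ClBase G) (hG : NoRes G) (F : ℕ → Set G)
    (hF : ∀ n, LH (F n)) (hanti : ∀ n, F (n+1) ⊆ F n) (h0 : F 0 = univ)
    (hfr : ∀ n, ∃ᶠ y in 𝓝 (1:G), y ∈ F n ∧ y ∉ F (n+1)) (hinter : ∀ x ≠ (1:G), ∃ n, x ∉ F n) :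
    False := by
  classical
  have hant : ∀ m n, m ≤ n → F n ⊆ F m := fun m n h => antitone_nat_of_succ_le (f := F) hanti h
  let U : G → Set G := fun x => {y | ∀ n, (x * y ∈ F n ↔ x ∈ F n ∧ y ∈ F n)}
  have hU1 : U 1 = univ := by
    ext y
    simp [U, (hF _).one_mem]
  have hU : ∀ x, U x ∈ 𝓝 (1:G) := by
    intro x
    by_cases hx : x = 1
    · rw [hx, hU1]; exact univ_mem
    · have hex := hinter x hx
      set L := Nat.find hex with hL
      have hL1 : x ∉ F L := Nat.find_spec hex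
      have hL2 : ∀ i < L, x ∈ F i := fun i hi => by
        have := Nat.find_min hex hi
        simpa using this
      have e1 : ∀ᶠ y in 𝓝 (1:G), ∀ i ∈ Finset.range L, (x * y ∈ F i ↔ y ∈ F i) := by
        rw [Filter.eventually_all_finset]
        intro i hi
        exact (hF i).hom x (hL2 i (Finset.mem_range.1 hi))
      filter_upwards [e1, ev_compl (hF L).closed hL1] with y h1 h2 n
      rcases lt_or_ge n L with h | h
      · have := h1 n (Finset.mem_range.2 h)
        have h3 := hL2 n h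
        tauto
      · have h3 : x * y ∉ F n := fun hc => h2 (hant L n h hc)
        have h4 : x ∉ F n := fun hc => hL1 (hant L n h hc)
        tauto
  obtain ⟨C⟩ := exists_coord hb U (fun _ => univ) hU hU1 (fun _ => univ_mem) rfl
  have CU : ∀ x y, y ∈ C.W (C.t x) → ∀ n, (x * y ∈ F n ↔ x ∈ F n ∧ y ∈ F n) := by
    intro x y hy
    exact C.U_sub x hy
  -- words
  have word : ∀ l l', C.wd (el C.lam (l ++ l')) = l ++ l' → ∀ n,
      (el C.lam (l ++ l') ∈ F n ↔ el C.lam l ∈ F n ∧ el C.lam l' ∈ F n) := by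
    intro l l' h n
    obtain ⟨d1, d2, d3⟩ := C.dec _ _ _ h
    rw [el_append]
    apply CU
    unfold Coord.t
    rw [d1]; exact d3
  let q0 : ℕ → List ℕ → Prop := fun m l => ∃ n, C.lam m ∉ F n ∧ el C.lam l ∈ F n
  let q : ℕ → ℕ → List ℕ → Prop := fun j m l => ∃ n ≤ j, C.lam m ∉ F n ∧ el C.lam l ∈ F n
  let c : G → ℕ := fun x => ct q0 (C.wd x)
  -- main formulas
  have suf : ∀ x w, w ∈ C.W (C.t x) → ∀ a m b, C.wd x = a ++ m :: b → ∀ n,
      (el C.lam (b ++ C.wd w) ∈ F n ↔ el C.lam b ∈ F n ∧ w ∈ F n) := by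
    intro x w hw a m b hab n
    have h1 : C.wd (x * w) = (a ++ [m]) ++ (b ++ C.wd w) := by
      rw [C.app x w hw, hab]; simp
    obtain ⟨_, d2, _⟩ := C.dec _ _ _ h1
    have := word b (C.wd w) d2 n
    rwa [C.el_wd] at this
  have f1 : ∀ x w j, w ∈ C.W (C.t x) → w ∈ F j → w ∉ F (j+1) → c (x * w) = ct (q j) (C.wd x) + c w := by
    intro x w j hw hj hj1
    change ct q0 (C.wd (x * w)) = _
    rw [C.app x w hw]
    apply ct_append
    intro a m b hab
    have hs := suf x w hw a m b hab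
    constructor
    · rintro ⟨n, h1, h2⟩
      obtain ⟨h3, h4⟩ := (hs n).1 h2
      refine ⟨n, ?_, h1, h3⟩
      by_contra hcon
      exact hj1 (hant _ _ (by omega) h4)
    · rintro ⟨n, hn, h1, h2⟩
      exact ⟨n, h1, (hs n).2 ⟨h2, hant _ _ hn hj⟩⟩
  have f2 : ∀ x w j k, w ∈ C.W (C.t x) → w ∈ F j → w ∉ F (j+1) → j ≤ k →
      ct (q k) (C.wd (x * w)) = ct (q j) (C.wd x) + ct (q k) (C.wd w) := by
    intro x w j k hw hj hj1 hjk
    rw [C.app x w hw]
    apply ct_append
    intro a m b hab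
    have hs := suf x w hw a m b hab
    constructor
    · rintro ⟨n, hn, h1, h2⟩
      obtain ⟨h3, h4⟩ := (hs n).1 h2
      refine ⟨n, ?_, h1, h3⟩
      by_contra hcon
      exact hj1 (hant _ _ (by omega) h4)
    · rintro ⟨n, hn, h1, h2⟩
      exact ⟨n, by omega, h1, (hs n).2 ⟨h2, hant _ _ hn hj⟩⟩
  -- counting for a word of level exactly J
  have f3 : ∀ J l, C.wd (el C.lam l) = l → el C.lam l ∈ F J →
      ct (q (J+1)) l = if el C.lam l ∈ F (J+1) then 0 else 1 := by
    intro J l
    induction l with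
    | nil => intro _ _; simp [ct, (hF _).one_mem]
    | cons m l ih =>
      intro hv hl
      have hv1 : C.wd (el C.lam (m :: l)) = [m] ++ l := hv
      obtain ⟨d1, d2, d3⟩ := C.dec _ _ _ hv1
      have hw := word [m] l hv1
      have hJ := (hw J).1 hl
      have hJ1 := hw (J+1)
      have hm : el C.lam [m] = C.lam m := by simp
      rw [hm] at hJ hJ1
      have ihl := ih d2 hJ.2
      have hq : q (J+1) m l ↔ C.lam m ∉ F (J+1) ∧ el C.lam l ∈ F (J+1) := by
        constructor
        · rintro ⟨n, hn, h1, h2⟩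
          have : n = J + 1 := by
            by_contra hcon
            exact h1 (hant n J (by omega) hJ.1)
          subst this
          exact ⟨h1, h2⟩
        · rintro ⟨h1, h2⟩
          exact ⟨J+1, le_rfl, h1, h2⟩
      simp only [ct, hq, ihl]
      change _ = if el C.lam ([m] ++ l) ∈ F (J+1) then 0 else 1
      by_cases ha : C.lam m ∈ F (J+1) <;> by_cases hbb : el C.lam l ∈ F (J+1) <;>
        simp only [hJ1, ha, hbb] <;> simp
  -- irresolvability
  obtain ⟨x0, -, hx0⟩ := ir hG (hF 0) {x | Odd (c x)}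
  have hx0' : ∀ᶠ y in 𝓝 (1:G), (Odd (c (x0 * y)) ↔ Odd (c x0)) := by
    filter_upwards [hx0] with y hy
    exact hy (by rw [h0]; trivial)
  obtain ⟨O, hOs, hO, h1O⟩ := mem_nhds_iff.1 hx0'
  -- the level J
  have hJ : ∃ J, ∀ m ∈ C.wd x0, C.lam m ∉ F J := by
    have : ∀ l : List ℕ, (∀ m ∈ l, C.lam m ≠ 1) → ∃ J, ∀ m ∈ l, C.lam m ∉ F J := by
      intro l
      induction l with
      | nil => intro _; exact ⟨0, by simp⟩
      | cons m l ih =>
        intro h
        obtain ⟨J, hJ⟩ := ih (fun k hk => h k (by simp [hk]))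
        obtain ⟨n, hn⟩ := hinter (C.lam m) (h m (by simp))
        refine ⟨max J n, ?_⟩
        intro k hk
        rcases List.mem_cons.1 hk with rfl | hk
        · exact fun hc => hn (hant _ _ (le_max_right _ _) hc)
        · exact fun hc => hJ k hk (hant _ _ (le_max_left _ _) hc)
    apply this
    intro m hm h1
    obtain ⟨a, b, hab⟩ := List.append_of_mem hm
    have hab' : C.wd x0 = a ++ ([m] ++ b) := by rw [hab]; simp
    obtain ⟨_, d2, _⟩ := C.dec _ _ _ hab'
    obtain ⟨d4, _, _⟩ := C.dec _ _ _ d2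
    have : el C.lam [m] = 1 := by simp [h1]
    rw [this, C.wd_one] at d4
    exact absurd d4 (by simp)
  obtain ⟨J, hJ⟩ := hJ
  -- choose w'
  obtain ⟨w', ⟨hw'1, hw'2⟩, hw'O, hw'W⟩ := ((hfr J).and_eventually
    ((hO.mem_nhds h1O : O ∈ 𝓝 (1:G)) |> fun h => (Filter.Eventually.and (p := fun y => y ∈ O) h
      (ev_W C (C.t x0))))).exists
  obtain ⟨w, ⟨hw1, hw2⟩, ⟨hwO, hwO'⟩, hwW, hwW'⟩ := ((hfr (J+1)).and_eventually
    (Filter.Eventually.and (Filter.Eventually.and (p := fun y => y ∈ O) (hO.mem_nhds h1O)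
      (ev_open hO hw'O)) ((ev_W C (C.t x0)).and (ev_W C (C.t (x0 * w')))))).exists
  have e1 := f1 x0 w (J+1) hwW hw1 hw2
  have e2 := f1 (x0 * w') w (J+1) hwW' hw1 hw2
  have e3 := f2 x0 w' J (J+1) hw'W hw'1 hw'2 (by omega)
  have e4 := f3 J (C.wd w') (by rw [C.el_wd]) (by rwa [C.el_wd])
  rw [C.el_wd, if_neg hw'2] at e4
  have e5 : ct (q (J+1)) (C.wd x0) = ct (q J) (C.wd x0) := by
    apply ct_congr
    intro a m b hab
    have hm : C.lam m ∉ F J := hJ m (by rw [hab]; simp)
    constructor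
    · rintro ⟨n, hn, h1, h2⟩
      rcases Nat.lt_or_eq_of_le hn with h | h
      · exact ⟨n, by omega, h1, h2⟩
      · subst h
        exact ⟨J, le_rfl, hm, hant _ _ (by omega) h2⟩
    · rintro ⟨n, hn, h1, h2⟩
      exact ⟨n, by omega, h1, h2⟩
  have o1 := hOs hwO
  have o2 := hOs hwO'
  simp only [Set.mem_ofPred_eq] at o1 o2
  rw [e1, e5] at o1
  rw [← mul_assoc, e2, e3, e4] at o2
  rw [← o2] at o1
  have : ct (q J) (C.wd x0) + 1 + c w = (ct (q J) (C.wd x0) + c w) + 1 := by ring
  rw [this, Nat.odd_add_one] at o1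
  tauto

end H473
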