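import Mathlib
import Pool.Agent.Helper473.LocSub
import Pool.Agent.Helper473.NoChain
import Pool.Agent.Helper473.Top

/-! Countable groups. -/

open Set Filter Topology Pointwise

namespace H473

variable {G : Type*} [Group G] [TopologicalSpace G] [IsTopologicalGroup G]

theorem clBase_of_countable [Countable G] [T2Space G] : ClBase G := by
  intro s hs
  have hB : TopologicalSpace.IsTopologicalBasis {s : Set G | IsClopen s} :=
    CompletelyRegularSpace.isTopologicalBasis_clopens_of_cardinalMk_lt_continuum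
      (lt_of_le_of_lt Cardinal.mk_le_aleph0 Cardinal.aleph0_lt_continuum)
  obtain ⟨O, hO, h1, hOs⟩ := hB.mem_nhds_iff.1 hs
  exact ⟨O, hOs, hO, h1⟩

omit [IsTopologicalGroup G] in
lemma UF_crowded {F : Set G} (h : (UF F).Infinite) : ∃ᶠ y in 𝓝 (1:G), y ∈ F ∧ y ≠ 1 := by
  obtain ⟨p, hp1, hp2, hp3⟩ := h.nonempty
  have h1 : ∀ᶠ y in (p : Filter G), y ∈ F := hp3
  have h2 : ∀ᶠ y in (p : Filter G), y ≠ 1 := by
    apply hp1
    rw [Filter.mem_cofinite]
    simp
  exact (h1.and h2).frequently.filter_mono hp2

theorem countable_T2 [Countable G] [T2Space G] (hinf : (UF (univ : Set G)).Infinite) :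
    ∃ A : Set G, Dense A ∧ Dense Aᶜ := by
  classical
  by_contra hG
  change NoRes G at hG
  have hb : ClBase G := clBase_of_countable
  obtain ⟨g, hg⟩ := exists_surjective_nat G
  obtain ⟨F, hF0, hFP, hFR⟩ := exists_chain (α := Set G) (fun F => LH F ∧ (UF F).Infinite)
    (fun m F F' => F' ⊆ F ∧ (∃ᶠ y in 𝓝 (1:G), y ∈ F ∧ y ∉ F') ∧ (g m ≠ 1 → g m ∉ F'))
    univ ⟨⟨mem_univ _, isClosed_univ, by simp⟩, hinf⟩ (by
      rintro m F ⟨hF, hFi⟩
      have hcr := UF_crowded hFi
      obtain ⟨N, hN, hNwd, hmax⟩ := exists_LH_nwd hb hG hF hcr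
      have hNi : (UF N).Infinite := by
        intro hfin
        exact top_layer hb hG hF hN hmax hFi hfin
      obtain ⟨O, hOg, hO, h1O⟩ : ∃ O : Set G, (g m ≠ 1 → g m ∉ O) ∧ IsClopen O ∧ (1:G) ∈ O := by
        by_cases hm : g m = 1
        · exact ⟨univ, fun h => absurd hm h, isClopen_univ, mem_univ _⟩
        · obtain ⟨O, hOs, hO, h1O⟩ := hb {g m}ᶜ (isOpen_compl_singleton.mem_nhds (by
            simpa using fun h => hm h.symm))
          exact ⟨O, fun _ h => hOs h rfl, hO, h1O⟩
      refine ⟨N ∩ O, ⟨hN.inter hO h1O, ?_⟩, ?_, ?_, ?_⟩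
      · refine hNi.mono ?_
        rintro p ⟨h1, h2, h3⟩
        exact ⟨h1, h2, inter_mem h3 (h2 (hO.isOpen.mem_nhds h1O))⟩
      · exact inter_subset_left.trans hNwd.sub
      · have := hNwd.dense 1 hF.one_mem
        refine this.mono ?_
        rintro y ⟨h1, h2⟩
        rw [one_mul] at h1 h2
        exact ⟨h1, fun h => h2 h.1⟩
      · intro h1 h2
        exact hOg h1 h2.2)
  refine no_chain hb hG F (fun n => (hFP n).1) (fun n => (hFR n).1) hF0 (fun n => (hFR n).2.1) ?_
  intro x hx
  obtain ⟨m, hm⟩ := hg x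
  exact ⟨m + 1, by rw [← hm]; exact (hFR m).2.2 (by rw [hm]; exact hx)⟩

/-- A topological group that is not Hausdorff is resolvable. -/
theorem not_T2 (h : ¬ T2Space G) : ∃ A : Set G, Dense A ∧ Dense Aᶜ := by
  have h0 : ¬ T0Space G := by
    intro h0
    exact h inferInstance
  have h1 : ∃ x y : G, Inseparable x y ∧ x ≠ y := by
    by_contra hcon
    push Not at hcon
    exact h0 ⟨fun {x y} hxy => hcon x y hxy⟩
  obtain ⟨x, y, hxy, hne⟩ := h1
  set k := x⁻¹ * y with hk
  have hk1 : k ≠ 1 := by
    intro h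
    apply hne
    have := inv_mul_eq_one.1 h
    exact this
  have hins : Inseparable (1:G) k := by
    have := (Inseparable.refl x⁻¹).mul hxy
    simpa using this
  let rep : G → G := fun x => Quotient.out (SeparationQuotient.mk x : SeparationQuotient G)
  have hrep : ∀ x, Inseparable (rep x) x := by
    intro x
    have : SeparationQuotient.mk (rep x) = (SeparationQuotient.mk x : SeparationQuotient G) :=
      Quotient.out_eq _
    exact SeparationQuotient.mk_eq_mk.1 this
  have hrepc : ∀ x y : G, Inseparable x y → rep x = rep y := by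
    intro x y hxy
    have : (SeparationQuotient.mk x : SeparationQuotient G) = SeparationQuotient.mk y :=
      SeparationQuotient.mk_eq_mk.2 hxy
    simp only [rep, this]
  refine ⟨{x | rep x = x}, ?_, ?_⟩
  · intro x
    have h1 : rep x ∈ {x | rep x = x} := hrepc _ _ (hrep x)
    have h2 : x ∈ closure {rep x} := by
      rw [← specializes_iff_mem_closure]
      exact (hrep x).specializes
    exact closure_mono (singleton_subset_iff.2 h1) h2
  · intro x
    have h3 : Inseparable (rep x * k) x := by
      have := (hrep x).mul hins.symm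
      simpa using this
    have h1 : rep x * k ∈ {x | rep x = x}ᶜ := by
      intro h
      have h4 : rep (rep x * k) = rep x := hrepc _ _ h3
      have h5 : rep (rep x * k) = rep x * k := h
      rw [h4] at h5
      exact hk1 (by simpa using h5.symm)
    have h2 : x ∈ closure {rep x * k} := by
      rw [← specializes_iff_mem_closure]
      exact h3.specializes
    exact closure_mono (singleton_subset_iff.2 h1) h2

end H473
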