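import Mathlib
import Pool.Agent.Helper473.Struct

/-! Rank functions on uncountable groups. -/

open Set Filter Topology Cardinal

namespace H473

universe u

section Cl

variable {G : Type u}

/-- a set closed under a sequence of list operations -/
def OpClosed (φ : ℕ → List G → G) (C : Set G) : Prop := ∀ n l, (∀ x ∈ l, x ∈ C) → φ n l ∈ C

/-- the closure of a set under a sequence of list operations -/
def cl (φ : ℕ → List G → G) (A : Set G) : Set G := ⋂₀ {C | A ⊆ C ∧ OpClosed φ C}

lemma cl_closed (φ : ℕ → List G → G) (A : Set G) : OpClosed φ (cl φ A) := by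
  intro n l hl
  rintro C ⟨h1, h2⟩
  exact h2 n l (fun x hx => hl x hx C ⟨h1, h2⟩)

lemma subset_cl (φ : ℕ → List G → G) (A : Set G) : A ⊆ cl φ A := by
  intro x hx
  rintro C ⟨h1, -⟩
  exact h1 hx

lemma cl_mono (φ : ℕ → List G → G) {A B : Set G} (h : A ⊆ B) : cl φ A ⊆ cl φ B := by
  intro x hx
  rintro C ⟨h1, h2⟩
  exact hx C ⟨h.trans h1, h2⟩

/-- one step of the closure -/
def stepSet (φ : ℕ → List G → G) (X : Set G) : Set G :=
  X ∪ range (fun p : ℕ × List X => φ p.1 (p.2.map Subtype.val))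

lemma card_step (φ : ℕ → List G → G) (X : Set G) {μ : Cardinal.{u}} (hμ : ℵ₀ ≤ μ) (hX : #X ≤ μ) :
    #(stepSet φ X) ≤ μ := by
  unfold stepSet
  refine (mk_union_le _ _).trans ?_
  apply add_le_of_le hμ hX
  refine mk_range_le.trans ?_
  rw [mk_prod]
  simp only [mk_nat, lift_aleph0, lift_id']
  apply mul_le_of_le hμ hμ
  have h1 := mk_list_le_max X
  have h2 : Cardinal.lift.{u} #(List X) = #(List X) := by simp
  refine le_trans (by simpa using h1) (max_le hμ hX)

lemma card_cl (φ : ℕ → List G → G) (A : Set G) {μ : Cardinal.{u}} (hμ : ℵ₀ ≤ μ) (hA : #A ≤ μ) :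
    #(cl φ A) ≤ μ := by
  let X : ℕ → Set G := fun n => (stepSet φ)^[n] A
  have hX0 : X 0 = A := rfl
  have hXs : ∀ n, X (n+1) = stepSet φ (X n) := fun n => Function.iterate_succ_apply' _ _ _
  have hmono : Monotone X := by
    apply monotone_nat_of_le_succ
    intro n
    rw [hXs]
    exact subset_union_left
  have hcard : ∀ n, #(X n) ≤ μ := by
    intro n
    induction n with
    | zero => exact hA
    | succ n ih => rw [hXs]; exact card_step φ _ hμ ih
  have hsub : cl φ A ⊆ ⋃ n, X n := by
    intro x hx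
    apply hx
    refine ⟨fun y hy => mem_iUnion.2 ⟨0, hy⟩, ?_⟩
    intro n l hl
    have : ∀ l : List G, (∀ x ∈ l, x ∈ ⋃ n, X n) → ∃ m, ∀ x ∈ l, x ∈ X m := by
      intro l
      induction l with
      | nil => intro _; exact ⟨0, by simp⟩
      | cons a l ih =>
        intro h
        obtain ⟨m, hm⟩ := ih (fun x hx => h x (List.mem_cons_of_mem _ hx))
        obtain ⟨k, hk⟩ := mem_iUnion.1 (h a List.mem_cons_self)
        refine ⟨max m k, ?_⟩
        intro x hx
        rcases List.mem_cons.1 hx with rfl | hx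
        · exact hmono (le_max_right _ _) hk
        · exact hmono (le_max_left _ _) (hm x hx)
    obtain ⟨m, hm⟩ := this l hl
    refine mem_iUnion.2 ⟨m+1, ?_⟩
    rw [hXs]
    refine Or.inr ⟨(n, l.attachWith (· ∈ X m) hm), ?_⟩
    simp
  refine (mk_le_mk_of_subset hsub).trans ?_
  have h1 : #(⋃ n, X n) ≤ μ := by
    have h2 := mk_iUnion_le_sum_mk_lift (f := X)
    have h3 : (Cardinal.sum fun i => #(X i)) ≤ μ := by
      refine (sum_le_sum _ (fun _ => μ) hcard).trans ?_
      simp only [sum_const, mk_nat, lift_aleph0, lift_id']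
      exact mul_le_of_le hμ hμ (by simp)
    have h4 : Cardinal.lift.{0} #(⋃ n, X n) = #(⋃ n, X n) := by simp
    calc #(⋃ n, X n) = Cardinal.lift.{0} #(⋃ n, X n) := h4.symm
      _ ≤ _ := h2
      _ ≤ μ := h3
  exact h1

end Cl

lemma exists_enum (G : Type u) (hG : ℵ₀ < #G) : ∃ e : G → Ordinal.{u}, Function.Injective e ∧
    ∀ x, #{y | e y ≤ e x} < #G := by
  obtain ⟨r, wo, hr⟩ := exists_ord_eq G
  refine ⟨fun x => Ordinal.typein r x, Ordinal.typein_injective r, ?_⟩
  intro x
  have h1 : {y | Ordinal.typein r y ≤ Ordinal.typein r x} ⊆ {y | r y x} ∪ {x} := by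
    intro y hy
    rcases lt_or_eq_of_le (show Ordinal.typein r y ≤ Ordinal.typein r x from hy) with h | h
    · left
      exact (Ordinal.typein_lt_typein r).1 h
    · right
      exact Ordinal.typein_injective r h
  refine (mk_le_mk_of_subset h1).trans_lt ?_
  refine (mk_union_le _ _).trans_lt ?_
  apply add_lt_of_lt hG.le
  · have h2 := card_typein_lt (r := r) x hr
    rw [Ordinal.card_typein] at h2
    exact h2
  · rw [mk_singleton]
    exact one_lt_aleph0.trans hG

/-- a rank function adapted to a small set and a list operation -/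
theorem exists_rank {G : Type u} [Group G] (hG : ℵ₀ < #G) (L : Set G) (hL : #L < #G)
    (φ : List G → G) : ∃ r : G → Ordinal.{u},
      (∀ x y, r (x*y) ≤ max (r x) (r y)) ∧ (∀ x, r x⁻¹ = r x) ∧ (∀ x ∈ L, ∀ y, r x ≤ r y) ∧
      (∀ l i, (∀ x ∈ l, r x ≤ i) → r (φ l) ≤ i) ∧ (∀ x, #{y | r y ≤ r x} < #G) := by
  obtain ⟨e, he, hcard⟩ := exists_enum G hG
  let ops : ℕ → List G → G := fun n l => if n = 0 then l.prod else if n = 1 then l.prod⁻¹ else φ l
  let C : Ordinal.{u} → Set G := fun i => cl ops (L ∪ {y | e y ≤ i})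
  have hCmono : ∀ {i j}, i ≤ j → C i ⊆ C j := by
    intro i j hij
    apply cl_mono
    apply union_subset_union_right
    intro y hy
    exact le_trans hy hij
  have hne : ∀ x, {i | x ∈ C i}.Nonempty := fun x =>
    ⟨e x, subset_cl _ _ (Or.inr (le_refl (e x)))⟩
  let r : G → Ordinal.{u} := fun x => sInf {i | x ∈ C i}
  have hr : ∀ x i, r x ≤ i ↔ x ∈ C i := by
    intro x i
    constructor
    · intro h
      exact hCmono h (csInf_mem (hne x))
    · intro h
      exact csInf_le' h
  have hmul : ∀ i x y, x ∈ C i → y ∈ C i → x * y ∈ C i := by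
    intro i x y hx hy
    have := cl_closed ops (L ∪ {y | e y ≤ i}) 0 [x, y] (by
      intro z hz
      simp only [List.mem_cons, List.not_mem_nil, or_false] at hz
      rcases hz with rfl | rfl
      · exact hx
      · exact hy)
    simpa [ops] using this
  have hinv : ∀ i x, x ∈ C i → x⁻¹ ∈ C i := by
    intro i x hx
    have := cl_closed ops (L ∪ {y | e y ≤ i}) 1 [x] (by
      intro z hz
      simp only [List.mem_cons, List.not_mem_nil, or_false] at hz
      rcases hz with rfl
      exact hx)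
    simpa [ops] using this
  refine ⟨r, ?_, ?_, ?_, ?_, ?_⟩
  · intro x y
    rw [hr]
    exact hmul _ _ _ ((hr _ _).1 (le_max_left _ _)) ((hr _ _).1 (le_max_right _ _))
  · intro x
    apply le_antisymm
    · rw [hr]; exact hinv _ _ ((hr _ _).1 le_rfl)
    · rw [hr]
      have := hinv _ _ ((hr x⁻¹ _).1 le_rfl)
      rwa [inv_inv] at this
  · intro x hx y
    rw [hr]
    exact subset_cl _ _ (Or.inl hx)
  · intro l i hl
    rw [hr]
    have := cl_closed ops (L ∪ {y | e y ≤ i}) 2 l (fun x hx => (hr _ _).1 (hl x hx))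
    simpa [ops] using this
  · intro x
    have h1 : {y | r y ≤ r x} ⊆ cl ops (L ∪ {y | e y ≤ e x}) := by
      intro y hy
      have h2 : r x ≤ e x := (hr _ _).2 (subset_cl _ _ (Or.inr (le_refl (e x))))
      exact (hr _ _).1 (le_trans hy h2)
    have h3 : #(L ∪ {y | e y ≤ e x} : Set G) < #G :=
      (mk_union_le _ _).trans_lt (add_lt_of_lt hG.le hL (hcard x))
    refine (mk_le_mk_of_subset h1).trans_lt ?_
    refine (card_cl ops _ (le_max_left ℵ₀ _) (le_max_right ℵ₀ _)).trans_lt ?_
    exact max_lt hG h3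

end H473
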