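import Mathlib
import Pool.Agent.Helper473.WeakP

/-! Every nondiscrete irresolvable group has a countable nondiscrete subgroup. -/

open Set Filter Topology Cardinal Pointwise

namespace H473

universe u

section

variable {G : Type u} [Group G] [TopologicalSpace G] [IsTopologicalGroup G]

theorem exists_rankFn (hG : ℵ₀ < #G) (hsmall : ∀ T : Subgroup G, #T < #G → DiscreteTopology T)
    (L : Set G) (hL : #L < #G) (φ : List G → G) :
    ∃ ρ : RankFn G, (∀ x ∈ L, ∀ y, ρ.r x ≤ ρ.r y) ∧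
      (∀ l i, (∀ x ∈ l, ρ.r x ≤ i) → ρ.r (φ l) ≤ i) := by
  obtain ⟨r, h1, h2, h3, h4, h5⟩ := exists_rank hG L hL φ
  refine ⟨⟨r, h1, h2, ?_⟩, h3, h4⟩
  intro x
  let T : Subgroup G :=
    { carrier := {y | r y ≤ r x}
      mul_mem' := fun {a b} ha hb => (h1 a b).trans (max_le ha hb)
      one_mem' := by
        have := h1 x x⁻¹
        rw [mul_inv_cancel, h2, max_self] at this
        exact this
      inv_mem' := fun {a} ha => by
        change r a⁻¹ ≤ r x
        rw [h2]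
        exact ha }
  have hT : DiscreteTopology T := hsmall T (h5 x)
  have h6 : ({1} : Set T) ∈ 𝓝 (1:T) := (isOpen_discrete _).mem_nhds rfl
  rw [nhds_subtype_eq_comap, mem_comap] at h6
  obtain ⟨U, hU, hUs⟩ := h6
  have hU' : U ∈ 𝓝 (1:G) := hU
  filter_upwards [hU'] with v hv hv1
  by_contra hcon
  push Not at hcon
  have h7 : (⟨v, hcon⟩ : T) ∈ ({1} : Set T) := hUs hv
  exact hv1 (congrArg Subtype.val (mem_singleton_iff.1 h7))

theorem propF (hres : NoRes G) (hnd : ¬ DiscreteTopology G) (hG : ℵ₀ < #G)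
    (hsmall : ∀ T : Subgroup G, #T < #G → DiscreteTopology T) (s : Finset G) {V0 : Set G}
    (hV0 : V0 ∈ 𝓝 (1:G)) : ¬ #{v | v ∈ V0 ∧ ∀ g ∈ s, v * g = g * v} < #G := by
  classical
  intro hlt
  obtain ⟨V1, hV1, hV1s⟩ := exists_div_nhds hV0
  set s' : Finset G := insert 1 s with hs'
  let gs : List G := s'.toList
  let φ : List G → G := fun l =>
    if h : ∃ v ∈ V1, gs.map (fun g => v * g * v⁻¹) = l then h.choose else 1
  obtain ⟨ρ, h1, h2⟩ := exists_rankFn hG hsmall {v | v ∈ V0 ∧ ∀ g ∈ s, v * g = g * v} hlt φ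
  have h3 : ∀ᶠ v in 𝓝 (1:G), ∀ g ∈ s', v ≠ 1 → ρ.r (v * g * v⁻¹) < ρ.r v := by
    rw [Filter.eventually_all_finset]
    intro g _
    exact ρ.propP hres hnd g
  have h4 : ∃ v ∈ V1, v ≠ 1 ∧ (∀ g ∈ s', ρ.r (v * g * v⁻¹) < ρ.r v) ∧ ρ.r 1 < ρ.r v := by
    by_contra hcon
    push Not at hcon
    apply hnd
    apply discreteTopology_of_isOpen_singleton_one
    rw [isOpen_iff_mem_nhds]
    intro x hx
    rw [mem_singleton_iff.1 hx]
    filter_upwards [hV1, h3, ρ.disc 1] with v h5 h6 h7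
    by_contra hv
    have hv1 : v ≠ 1 := hv
    exact absurd (h7 hv1) (not_lt_of_ge (hcon v h5 hv1 (fun g hg => h6 g hg hv1)))
  obtain ⟨v, hv, hv1, hv2, hv3⟩ := h4
  obtain ⟨g0, hg0, hmax⟩ := Finset.exists_max_image s' (fun g => ρ.r (v * g * v⁻¹))
    ⟨1, Finset.mem_insert_self 1 s⟩
  have hex : ∃ w ∈ V1, gs.map (fun g => w * g * w⁻¹) = gs.map (fun g => v * g * v⁻¹) :=
    ⟨v, hv, rfl⟩
  have hφ : φ (gs.map (fun g => v * g * v⁻¹)) = hex.choose := by
    change (if h : ∃ w ∈ V1, gs.map (fun g => w * g * w⁻¹) = gs.map (fun g => v * g * v⁻¹)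
      then h.choose else 1) = _
    rw [dif_pos hex]
  obtain ⟨hw1, hw2⟩ := hex.choose_spec
  set w := hex.choose with hw
  have h5 : ρ.r w ≤ ρ.r (v * g0 * v⁻¹) := by
    rw [← hφ]
    apply h2
    intro x hx
    rw [List.mem_map] at hx
    obtain ⟨g, hg, rfl⟩ := hx
    exact hmax g (Finset.mem_toList.1 hg)
  have h6 : ρ.r w < ρ.r v := h5.trans_lt (hv2 g0 hg0)
  have h7 : w⁻¹ * v ∈ {v | v ∈ V0 ∧ ∀ g ∈ s, v * g = g * v} := by
    refine ⟨hV1s w hw1 v hv, ?_⟩
    intro g hg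
    have hg' : g ∈ gs := Finset.mem_toList.2 (Finset.mem_insert_of_mem hg)
    have h8 : w * g * w⁻¹ = v * g * v⁻¹ := (List.map_inj_left.1 hw2) g hg'
    have h9 : g * w⁻¹ * v = w⁻¹ * v * g := by
      calc g * w⁻¹ * v = w⁻¹ * (w * g * w⁻¹) * v := by group
        _ = w⁻¹ * (v * g * v⁻¹) * v := by rw [h8]
        _ = _ := by group
    rw [← mul_assoc]
    exact h9.symm
  have h8 : ρ.r (w⁻¹ * v) ≤ ρ.r 1 := h1 _ h7 1
  have h9 : ρ.r v < ρ.r v := by
    have h10 : v = w * (w⁻¹ * v) := by group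
    calc ρ.r v = ρ.r (w * (w⁻¹ * v)) := by rw [← h10]
      _ < ρ.r v := ρ.mul_lt h6 (h8.trans_lt hv3)
  exact lt_irrefl _ h9

theorem core2 (hres : NoRes G) (ρ : RankFn G) (e : G → Ordinal.{u}) (he : Function.Injective e)
    (hC : ∀ x : G, ∀ᶠ y in 𝓝 (1:G), x * y = y * x) (hunc : ∀ U ∈ 𝓝 (1:G), ¬ U.Countable) :
    False := by
  have h1 := ρ.squares hres hC e he
  obtain ⟨K, hK, hKc⟩ := exists_open_comm h1
  have hKres : NoRes K := fun h => hres (res_of_subgroup K h)
  obtain ⟨U, hU, hUc⟩ := good_of_comm (G := K) (fun x y => Subtype.ext (hKc x x.2 y y.2)) hKres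
  apply hunc (Subtype.val '' U) _ (hUc.image _)
  exact hK.isOpenMap_subtype_val.image_mem_nhds hU

end

/-- the topology generated by the neighbourhoods of `1` and the centralizers of finite sets -/
def cBasis (G : Type u) [Group G] [TopologicalSpace G] [IsTopologicalGroup G] :
    GroupFilterBasis G where
  sets := {U | ∃ V ∈ 𝓝 (1:G), ∃ s : Finset G, U = {v | v ∈ V ∧ ∀ g ∈ s, v * g = g * v}}
  nonempty := ⟨_, univ, univ_mem, ∅, rfl⟩
  inter_sets := by
    classical
    rintro _ _ ⟨V, hV, s, rfl⟩ ⟨W, hW, t, rfl⟩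
    refine ⟨_, ⟨V ∩ W, inter_mem hV hW, s ∪ t, rfl⟩, ?_⟩
    rintro v ⟨⟨h1, h2⟩, h3⟩
    exact ⟨⟨h1, fun g hg => h3 g (Finset.mem_union_left _ hg)⟩,
      ⟨h2, fun g hg => h3 g (Finset.mem_union_right _ hg)⟩⟩
  one' := by
    rintro _ ⟨V, hV, s, rfl⟩
    exact ⟨mem_of_mem_nhds hV, by simp⟩
  mul' := by
    rintro _ ⟨V, hV, s, rfl⟩
    obtain ⟨W, hW, hWs⟩ := exists_nhds_one_split hV
    refine ⟨_, ⟨W, hW, s, rfl⟩, ?_⟩
    rintro _ ⟨a, ⟨ha, ha2⟩, b, ⟨hb, hb2⟩, rfl⟩
    refine ⟨hWs a ha b hb, ?_⟩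
    intro g hg
    change a * b * g = g * (a * b)
    rw [mul_assoc, hb2 g hg, ← mul_assoc, ha2 g hg, mul_assoc]
  inv' := by
    rintro _ ⟨V, hV, s, rfl⟩
    have h1 : {x : G | x⁻¹ ∈ V} ∈ 𝓝 (1:G) := by
      have : Tendsto (fun y : G => y⁻¹) (𝓝 1) (𝓝 1) := by
        have := (continuous_inv (G := G)).tendsto 1
        rwa [inv_one] at this
      exact this hV
    refine ⟨_, ⟨_, h1, s, rfl⟩, ?_⟩
    rintro a ⟨ha, ha2⟩
    refine ⟨ha, ?_⟩
    intro g hg
    change a⁻¹ * g = g * a⁻¹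
    have := ha2 g hg
    calc a⁻¹ * g = a⁻¹ * (g * a) * a⁻¹ := by group
      _ = a⁻¹ * (a * g) * a⁻¹ := by rw [this]
      _ = _ := by group
  conj' := by
    classical
    rintro x _ ⟨V, hV, s, rfl⟩
    have h1 : {y : G | x * y * x⁻¹ ∈ V} ∈ 𝓝 (1:G) := by
      have : Tendsto (fun y : G => x * y * x⁻¹) (𝓝 1) (𝓝 1) := by
        have h2 : Continuous (fun y : G => x * y * x⁻¹) := by fun_prop
        have := h2.tendsto 1
        rwa [mul_one, mul_inv_cancel] at this
      exact this hV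
    refine ⟨_, ⟨_, h1, s.image (fun g => x⁻¹ * g * x), rfl⟩, ?_⟩
    rintro a ⟨ha, ha2⟩
    refine ⟨ha, ?_⟩
    intro g hg
    change x * a * x⁻¹ * g = g * (x * a * x⁻¹)
    have := ha2 _ (Finset.mem_image_of_mem _ hg)
    calc x * a * x⁻¹ * g = x * (a * (x⁻¹ * g * x)) * x⁻¹ := by group
      _ = x * ((x⁻¹ * g * x) * a) * x⁻¹ := by rw [this]
      _ = _ := by group

theorem core {G : Type u} [Group G] [t : TopologicalSpace G] [IsTopologicalGroup G]
    (hres : NoRes G) (hnd : ¬ DiscreteTopology G) (hG : ℵ₀ < #G)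
    (hsmall : ∀ T : Subgroup G, #T < #G → DiscreteTopology T) : False := by
  obtain ⟨e, he, -⟩ := exists_enum G hG
  have h0 : #(∅ : Set G) < #G := by
    rw [mk_eq_zero]
    exact lt_trans aleph0_pos hG
  obtain ⟨ρ, -, -⟩ := exists_rankFn hG hsmall ∅ h0 (fun _ => 1)
  let B := cBasis G
  have hb : ∀ U : Set G, U ∈ @nhds G B.topology 1 ↔
      ∃ V ∈ 𝓝 (1:G), ∃ s : Finset G, {v | v ∈ V ∧ ∀ g ∈ s, v * g = g * v} ⊆ U := by
    intro U
    rw [B.nhds_one_hasBasis.mem_iff]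
    constructor
    · rintro ⟨_, ⟨V, hV, s, rfl⟩, h⟩
      exact ⟨V, hV, s, h⟩
    · rintro ⟨V, hV, s, h⟩
      exact ⟨_, ⟨V, hV, s, rfl⟩, h⟩
  have hle1 : @nhds G B.topology 1 ≤ @nhds G t 1 := by
    intro U hU
    rw [hb]
    exact ⟨U, hU, ∅, fun v hv => hv.1⟩
  have hle : B.topology ≤ t := by
    rw [TopologicalSpace.le_def]
    intro O hO
    refine (@isOpen_iff_mem_nhds G B.topology O).2 ?_
    intro x hx
    have h1 : (fun y => x * y) ⁻¹' O ∈ @nhds G t 1 := (tends_mul x) (hO.mem_nhds hx)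
    have h2 := hle1 h1
    have h3 : @nhds G B.topology x = map (fun y => x * y) (@nhds G B.topology 1) := by
      have := @map_mul_left_nhds_one G B.topology _ _ x
      exact this.symm
    rw [h3]
    exact h2
  have hres' : @NoRes G B.topology := by
    rintro ⟨A, hA, hA'⟩
    apply hres
    exact ⟨A, fun x => closure.mono hle (hA x), fun x => closure.mono hle (hA' x)⟩
  let ρ' : @RankFn G _ B.topology :=
    @RankFn.mk G _ B.topology ρ.r ρ.mul_le ρ.inv_eq (fun x => hle1 (ρ.disc x))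
  refine @core2 G _ B.topology _ hres' ρ' e he ?_ ?_
  · intro x
    change {y | x * y = y * x} ∈ @nhds G B.topology 1
    rw [hb]
    refine ⟨univ, univ_mem, {x}, ?_⟩
    rintro v ⟨-, hv⟩
    exact (hv x (Finset.mem_singleton_self x)).symm
  · intro U hU hUc
    rw [hb] at hU
    obtain ⟨V, hV, s, hs⟩ := hU
    apply propF hres hnd hG hsmall s hV
    refine lt_of_le_of_lt ?_ hG
    rw [le_aleph0_iff_set_countable]
    exact hUc.mono hs

theorem exists_countable {G : Type u} [Group G] [TopologicalSpace G] [IsTopologicalGroup G]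
    (hres : NoRes G) (hnd : ¬ DiscreteTopology G) :
    ∃ C : Subgroup G, Countable C ∧ ¬ DiscreteTopology C := by
  have hne : {c : Cardinal.{u} | ∃ S : Subgroup G, ¬ DiscreteTopology S ∧ #S = c}.Nonempty := by
    refine ⟨#(⊤ : Subgroup G), ⊤, ?_, rfl⟩
    intro h
    apply hnd
    have h1 : ({1} : Set (⊤ : Subgroup G)) ∈ 𝓝 (1 : (⊤ : Subgroup G)) :=
      (isOpen_discrete _).mem_nhds rfl
    rw [nhds_subtype_eq_comap, mem_comap] at h1
    obtain ⟨U, hU, hUs⟩ := h1
    have hU' : U ∈ 𝓝 (1:G) := hU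
    apply discreteTopology_of_isOpen_singleton_one
    rw [isOpen_iff_mem_nhds]
    intro x hx
    rw [mem_singleton_iff.1 hx]
    filter_upwards [hU'] with v hv
    have h7 : (⟨v, Subgroup.mem_top v⟩ : (⊤ : Subgroup G)) ∈ ({1} : Set (⊤ : Subgroup G)) := hUs hv
    exact congrArg Subtype.val (mem_singleton_iff.1 h7)
  have hwf : WellFounded ((· < ·) : Cardinal.{u} → Cardinal.{u} → Prop) := wellFounded_lt
  obtain ⟨κ, ⟨S, hS, hSc⟩, hmin⟩ := hwf.has_min _ hne
  by_cases hct : #S ≤ ℵ₀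
  · exact ⟨S, mk_le_aleph0_iff.1 hct, hS⟩
  · exfalso
    push Not at hct
    refine core (G := S) (fun h => hres (res_of_subgroup S h)) hS hct ?_
    intro T hT
    by_contra hTd
    have h1 : ¬ DiscreteTopology (T.map S.subtype) := by
      intro h
      apply hTd
      have h2 : ({1} : Set (T.map S.subtype)) ∈ 𝓝 (1 : T.map S.subtype) :=
        (isOpen_discrete _).mem_nhds rfl
      rw [nhds_subtype_eq_comap, mem_comap] at h2
      obtain ⟨U, hU, hUs⟩ := h2
      have hU' : U ∈ 𝓝 (1:G) := hU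
      apply discreteTopology_of_isOpen_singleton_one
      rw [isOpen_iff_mem_nhds]
      intro x hx
      rw [mem_singleton_iff.1 hx]
      have h3 : Tendsto (fun x : T => ((x : S) : G)) (𝓝 1) (𝓝 1) := by
        have h4 : Continuous (fun x : T => ((x : S) : G)) := by fun_prop
        exact h4.tendsto 1
      filter_upwards [h3 hU'] with v hv
      have h7 : (⟨((v : S) : G), ⟨(v : S), v.2, rfl⟩⟩ : T.map S.subtype) ∈
        ({1} : Set (T.map S.subtype)) := hUs hv
      have h8 : ((v : S) : G) = 1 := congrArg Subtype.val (mem_singleton_iff.1 h7)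
      exact Subtype.ext (Subtype.ext h8)
    have h2 : #(T.map S.subtype) = #T := by
      have h3 : Function.Injective S.subtype := Subtype.val_injective
      exact (mk_congr (T.equivMapOfInjective S.subtype h3).toEquiv).symm
    have h3 : #(T.map S.subtype) < κ := by
      rw [h2, ← hSc]
      exact hT
    exact hmin #(T.map S.subtype) ⟨_, h1, rfl⟩ h3

/-- Every nondiscrete irresolvable group has an infinite countable Boolean subgroup
that is not discrete. -/
theorem exists_boolean {G : Type u} [Group G] [TopologicalSpace G] [IsTopologicalGroup G]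
    (hres : NoRes G) (hnd : ¬ DiscreteTopology G) :
    ∃ H : Subgroup G, (H : Set G).Infinite ∧ ∀ x ∈ H, x * x = 1 := by
  obtain ⟨C, hC, hCd⟩ := exists_countable hres hnd
  have hT2 : T2Space G := T2_of_NoRes hres
  have hCres : NoRes C := fun h => hres (res_of_subgroup C h)
  obtain ⟨K, hK, hK2⟩ := open_boolean hCres
  have hinf := infinite_of_open hCd K hK
  refine ⟨K.map C.subtype, ?_, ?_⟩
  · have h1 : ((K.map C.subtype : Subgroup G) : Set G) = Subtype.val '' (K : Set C) := by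
      simp
    rw [h1]
    exact hinf.image Subtype.val_injective.injOn
  · rintro _ ⟨k, hk, rfl⟩
    have := hK2 k hk
    exact congrArg Subtype.val this

end H473
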