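import Mathlib
import Pool.Agent.Helper639.RO.Defs
set_option autoImplicit false

namespace Pool.Agent.Helper639.RO

open Filter

theorem IsCone.one_mem {R : Type} [Group R] {P : Set R} (hP : IsCone P) : (1 : R) ∈ P := by
  rcases hP.2.1 1 with h | h
  · exact h
  · simpa using h

/-- a cone containing a finite generating set and its inverses would be everything -/
theorem IsCone.exists_gen {R : Type} [Group R] {P : Set R} (hP : IsCone P) (S : Finset R)
    (hS : Subgroup.closure (S : Set R) = ⊤) : ∃ s ∈ S, ¬ (s ∈ P ∧ s⁻¹ ∈ P) := by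
  by_contra hcon
  push Not at hcon
  apply hP.2.2
  rw [Set.eq_univ_iff_forall]
  have h3 : ∀ x : R, x ∈ P ∧ x⁻¹ ∈ P := by
    intro x
    have hx : x ∈ Subgroup.closure (S : Set R) := by
      rw [hS]
      trivial
    induction hx using Subgroup.closure_induction with
    | mem s hs => exact hcon s hs
    | one => simpa using hP.one_mem
    | mul a b _ _ ha hb =>
      rw [mul_inv_rev]
      exact ⟨hP.1 _ ha.1 _ hb.1, hP.1 _ hb.2 _ ha.2⟩
    | inv a _ ha =>
      rw [inv_inv]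
      exact ⟨ha.2, ha.1⟩
  exact fun x => (h3 x).1

/-- ultrafilter limit of cones on a finitely generated group -/
theorem cone_ultra {R : Type} [Group R] (hfg : (⊤ : Subgroup R).FG) {ι : Type*}
    (U : Ultrafilter ι) (P : ι → Set R) (hP : ∀ i, IsCone (P i)) :
    IsCone {x | ∀ᶠ i in (U : Filter ι), x ∈ P i} := by
  refine ⟨?_, ?_, ?_⟩
  · intro x hx y hy
    show ∀ᶠ i in (U : Filter ι), _
    filter_upwards [hx, hy] with i h2 h3
    exact (hP i).1 _ h2 _ h3
  · intro x
    have : ∀ᶠ i in (U : Filter ι), x ∈ P i ∨ x⁻¹ ∈ P i := Eventually.of_forall fun i => (hP i).2.1 x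
    rwa [Ultrafilter.eventually_or] at this
  · intro hU
    obtain ⟨S, hS⟩ := hfg
    have hall : ∀ x : R, ∀ᶠ i in (U : Filter ι), x ∈ P i := by
      intro x
      have : x ∈ {x | ∀ᶠ i in (U : Filter ι), x ∈ P i} := by
        rw [hU]
        trivial
      exact this
    have h2 : ∀ᶠ i in (U : Filter ι), ∀ s ∈ S, s ∈ P i ∧ s⁻¹ ∈ P i := by
      rw [eventually_all_finset]
      intro s _
      exact (hall s).and (hall s⁻¹)
    obtain ⟨i, hi⟩ := h2.exists
    obtain ⟨s, hs, hns⟩ := (hP i).exists_gen S hS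
    exact hns (hi s hs)

/-- (C1) maximal admissible normal subgroups -/
theorem exists_max {R : Type} [Group R] (hfg : (⊤ : Subgroup R).FG) (M : Subgroup R)
    (hM : M.Normal) (P : Set R) (hP : IsCone P) (hMP : (M : Set R) ⊆ P) :
    ∃ N : Subgroup R, N.Normal ∧ M ≤ N ∧ (∃ P' : Set R, IsCone P' ∧ (N : Set R) ⊆ P') ∧
      ∀ N' : Subgroup R, N'.Normal → N ≤ N' → (∃ P' : Set R, IsCone P' ∧ (N' : Set R) ⊆ P') →
        N' = N := by
  classical
  set s : Set (Subgroup R) := {N | N.Normal ∧ ∃ P' : Set R, IsCone P' ∧ (N : Set R) ⊆ P'} with hs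
  have hz : ∀ c ⊆ s, IsChain (· ≤ ·) c → ∀ y ∈ c, ∃ ub ∈ s, ∀ z ∈ c, z ≤ ub := by
    intro c hcs hc y hy
    have hdir : DirectedOn (· ≤ ·) c := hc.directedOn
    have hne : c.Nonempty := ⟨y, hy⟩
    refine ⟨sSup c, ⟨?_, ?_⟩, fun z hz => le_sSup hz⟩
    · constructor
      intro x hx g
      rw [Subgroup.mem_sSup_of_directedOn hne hdir] at hx ⊢
      obtain ⟨N, hN, hxN⟩ := hx
      exact ⟨N, hN, (hcs hN).1.conj_mem x hxN g⟩
    · have hch : ∀ N : c, ∃ P' : Set R, IsCone P' ∧ ((N : Subgroup R) : Set R) ⊆ P' :=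
        fun N => (hcs N.2).2
      choose Q hQ1 hQ2 using hch
      have : Nonempty c := ⟨⟨y, hy⟩⟩
      have : IsDirectedOrder c := ⟨fun a b => by
        obtain ⟨z, hz, haz, hbz⟩ := hdir a.1 a.2 b.1 b.2
        exact ⟨⟨z, hz⟩, haz, hbz⟩⟩
      have hbot : (atTop : Filter c).NeBot := atTop_neBot
      refine ⟨_, cone_ultra hfg (Ultrafilter.of (atTop : Filter c)) Q hQ1, ?_⟩
      intro x hx
      rw [SetLike.mem_coe, Subgroup.mem_sSup_of_directedOn hne hdir] at hx
      obtain ⟨N, hN, hxN⟩ := hx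
      have : ∀ᶠ i in (atTop : Filter c), x ∈ Q i := by
        filter_upwards [eventually_ge_atTop (⟨N, hN⟩ : c)] with i hi
        exact hQ2 i (hi hxN)
      exact Ultrafilter.of_le _ this
  obtain ⟨N, hMN, hN⟩ := zorn_le_nonempty₀ s hz M ⟨hM, P, hP, hMP⟩
  refine ⟨N, hN.prop.1, hMN, hN.prop.2, ?_⟩
  intro N' hN' hle hex
  exact le_antisymm (hN.le_of_ge ⟨hN', hex⟩ hle) hle

end Pool.Agent.Helper639.RO
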