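import Mathlib
import Pool.Agent.Helper473.CoreW

/-! Rank functions relative to a countable subgroup. -/

open Set Filter Topology Cardinal

namespace H473

universe u

/-- a rank function compatible with the topology, relative to a subgroup -/
structure RelRank (G : Type u) [Group G] [TopologicalSpace G] (H : Subgroup G) where
  /-- the rank -/
  r : G → Ordinal.{u}
  mul_le : ∀ x y, r (x * y) ≤ max (r x) (r y)
  inv_eq : ∀ x, r x⁻¹ = r x
  sub : ∀ x ∈ H, ∀ y, r x ≤ r y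
  disc : ∀ x, ∀ᶠ v in 𝓝 (1:G), v ∉ H → r x < r v

namespace RelRank

variable {G : Type u} [Group G] [TopologicalSpace G] {H : Subgroup G} (ρ : RelRank G H)

lemma mul_left_eq {x v : G} (h : ρ.r x < ρ.r v) : ρ.r (x * v) = ρ.r v := by
  apply le_antisymm
  · exact (ρ.mul_le x v).trans (max_le h.le le_rfl)
  · by_contra hcon
    push Not at hcon
    have := ρ.mul_le x⁻¹ (x*v)
    rw [inv_mul_cancel_left, ρ.inv_eq] at this
    exact absurd (this.trans_lt (max_lt h hcon)) (lt_irrefl _)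

lemma mul_right_eq {x v : G} (h : ρ.r x < ρ.r v) : ρ.r (v * x) = ρ.r v := by
  rw [← ρ.inv_eq (v * x), mul_inv_rev]
  rw [← ρ.inv_eq x, ← ρ.inv_eq v] at h
  rw [ρ.mul_left_eq h, ρ.inv_eq]

lemma mul_lt {x y : G} {i : Ordinal.{u}} (hx : ρ.r x < i) (hy : ρ.r y < i) : ρ.r (x * y) < i :=
  (ρ.mul_le x y).trans_lt (max_lt hx hy)

/-- the equivalence relation of the rank function -/
def rel : Setoid G where
  r x y := x = y ∨ (ρ.r x = ρ.r y ∧ ρ.r (x * y⁻¹) < ρ.r x)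
  iseqv := by
    refine ⟨fun x => Or.inl rfl, ?_, ?_⟩
    · rintro x y (h | ⟨h1, h2⟩)
      · exact Or.inl h.symm
      · right
        refine ⟨h1.symm, ?_⟩
        rw [← ρ.inv_eq (y * x⁻¹), mul_inv_rev, inv_inv, ← h1]
        exact h2
    · rintro x y z (rfl | ⟨h1, h2⟩) (rfl | ⟨h3, h4⟩)
      · exact Or.inl rfl
      · exact Or.inr ⟨h3, h4⟩
      · exact Or.inr ⟨h1, h2⟩
      · right
        refine ⟨h1.trans h3, ?_⟩
        have : x * z⁻¹ = (x * y⁻¹) * (y * z⁻¹) := by group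
        rw [this]
        exact ρ.mul_lt h2 (by rw [h1]; exact h4)

/-- the quotient map -/
def F (x : G) : Quotient ρ.rel := Quotient.mk ρ.rel x

lemma F_eq {x y : G} : ρ.F x = ρ.F y ↔ x = y ∨ (ρ.r x = ρ.r y ∧ ρ.r (x * y⁻¹) < ρ.r x) :=
  Quotient.eq (r := ρ.rel)

lemma F_mul {x v : G} (h : ρ.r x < ρ.r v) : ρ.F (x * v) = ρ.F v := by
  rw [F_eq]
  right
  refine ⟨ρ.mul_left_eq h, ?_⟩
  rw [mul_inv_cancel_right, ρ.mul_left_eq h]
  exact h

/-- right multiplication by `g` on the classes of rank above `g` -/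
noncomputable def R (g : G) : Quotient ρ.rel → Quotient ρ.rel := by
  classical
  refine Quotient.lift (fun x => if ρ.r g < ρ.r x then ρ.F (x * g) else ρ.F x) ?_
  intro x y hxy
  have hxy' : x = y ∨ (ρ.r x = ρ.r y ∧ ρ.r (x * y⁻¹) < ρ.r x) := hxy
  rcases hxy' with rfl | ⟨h1, h2⟩
  · rfl
  · by_cases hg : ρ.r g < ρ.r x
    · have hg' : ρ.r g < ρ.r y := h1 ▸ hg
      simp only [hg, hg', if_true]
      rw [F_eq]
      right
      rw [ρ.mul_right_eq hg, ρ.mul_right_eq hg']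
      refine ⟨h1, ?_⟩
      have : x * g * (y * g)⁻¹ = x * y⁻¹ := by group
      rw [this]
      exact h2
    · have hg' : ¬ ρ.r g < ρ.r y := h1 ▸ hg
      simp only [hg, hg', if_false]
      rw [F_eq]
      exact Or.inr ⟨h1, h2⟩

lemma R_pos {g x : G} (h : ρ.r g < ρ.r x) : ρ.R g (ρ.F x) = ρ.F (x * g) := by
  change (if ρ.r g < ρ.r x then ρ.F (x * g) else ρ.F x) = _
  rw [if_pos h]

lemma R_neg {g x : G} (h : ¬ ρ.r g < ρ.r x) : ρ.R g (ρ.F x) = ρ.F x := by
  change (if ρ.r g < ρ.r x then ρ.F (x * g) else ρ.F x) = _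
  rw [if_neg h]

lemma R_inj (g : G) : Function.Injective (ρ.R g) := by
  have key : ∀ x y : G, ρ.R g (ρ.F x) = ρ.R g (ρ.F y) → ρ.F x = ρ.F y := by
    intro x y h
    by_cases hx : ρ.r g < ρ.r x
    · by_cases hy : ρ.r g < ρ.r y
      · rw [ρ.R_pos hx, ρ.R_pos hy, F_eq] at h
        rw [F_eq]
        rcases h with h | ⟨h1, h2⟩
        · exact Or.inl (mul_right_cancel h)
        · right
          rw [ρ.mul_right_eq hx, ρ.mul_right_eq hy] at h1
          have : x * g * (y * g)⁻¹ = x * y⁻¹ := by group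
          rw [this, ρ.mul_right_eq hx] at h2
          exact ⟨h1, h2⟩
      · rw [ρ.R_pos hx, ρ.R_neg hy, F_eq] at h
        exfalso
        have h1 : ρ.r (x * g) = ρ.r y := by
          rcases h with h | ⟨h1, -⟩
          · rw [h]
          · exact h1
        rw [ρ.mul_right_eq hx] at h1
        exact hy (h1 ▸ hx)
    · by_cases hy : ρ.r g < ρ.r y
      · rw [ρ.R_neg hx, ρ.R_pos hy, F_eq] at h
        exfalso
        have h1 : ρ.r x = ρ.r (y * g) := by
          rcases h with h | ⟨h1, -⟩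
          · rw [h]
          · exact h1
        rw [ρ.mul_right_eq hy] at h1
        exact hx (h1 ▸ hy)
      · rwa [ρ.R_neg hx, ρ.R_neg hy] at h
  intro a b
  induction a using Quotient.inductionOn with
  | h x =>
    induction b using Quotient.inductionOn with
    | h y => exact key x y

variable [IsTopologicalGroup G]

/-- the germ of the rank function outside `H` is an ultrafilter -/
lemma germ (hG : NoRes G) (s : Set (Quotient ρ.rel)) :
    (∀ᶠ v in 𝓝[(H : Set G)ᶜ] (1:G), ρ.F v ∈ s) ∨ (∀ᶠ v in 𝓝[(H : Set G)ᶜ] (1:G), ρ.F v ∉ s) := by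
  obtain ⟨x, hx⟩ := exists_loc_const hG {y | ρ.F y ∈ s}
  have h1 : ∀ᶠ v in 𝓝[(H : Set G)ᶜ] (1:G), (ρ.F v ∈ s ↔ ρ.F x ∈ s) := by
    rw [eventually_nhdsWithin_iff]
    filter_upwards [hx, ρ.disc x] with v h2 h3 h4
    have h5 := ρ.F_mul (h3 h4)
    have h6 : ρ.F (x * v) ∈ s ↔ ρ.F x ∈ s := h2
    rwa [h5] at h6
  by_cases h : ρ.F x ∈ s
  · left
    filter_upwards [h1] with v hv
    exact hv.2 h
  · right
    filter_upwards [h1] with v hv
    exact fun h2 => h (hv.1 h2)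

include ρ in
lemma conj_tendsto (g : G) :
    Tendsto (fun v : G => g⁻¹ * v * g) (𝓝[(H : Set G)ᶜ] 1) (𝓝[(H : Set G)ᶜ] 1) := by
  apply tendsto_nhdsWithin_of_tendsto_nhds_of_eventually_within
  · have : Continuous (fun v : G => g⁻¹ * v * g) := by fun_prop
    have h := this.tendsto 1
    have h2 : g⁻¹ * 1 * g = 1 := by simp
    rw [h2] at h
    exact h.mono_left nhdsWithin_le_nhds
  · rw [eventually_nhdsWithin_iff]
    filter_upwards [ρ.disc g] with v hv hvH h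
    have h1 := hv hvH
    have h2 : v = g * (g⁻¹ * v * g) * g⁻¹ := by group
    have h3 : ρ.r v ≤ ρ.r g := by
      rw [h2]
      refine (ρ.mul_le _ _).trans (max_le ?_ ?_)
      · exact (ρ.mul_le _ _).trans (max_le le_rfl (ρ.sub _ h g))
      · rw [ρ.inv_eq]
    exact absurd h1 (not_lt_of_ge h3)

theorem propP (hG : NoRes G) (g : G) :
    ∀ᶠ v in 𝓝 (1:G), v ∉ H → ρ.r (v * g * v⁻¹) < ρ.r v := by
  rcases eq_or_neBot (𝓝[(H : Set G)ᶜ] (1:G)) with hbot | hne
  · have h1 : ∀ᶠ v in 𝓝[(H : Set G)ᶜ] (1:G), ρ.r (v * g * v⁻¹) < ρ.r v := by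
      rw [hbot]
      exact eventually_bot
    rw [eventually_nhdsWithin_iff] at h1
    exact h1
  have hmap : (map ρ.F (𝓝[(H : Set G)ᶜ] (1:G))).NeBot := hne.map _
  let q : Ultrafilter (Quotient ρ.rel) :=
    Ultrafilter.ofComplNotMemIff (map ρ.F (𝓝[(H : Set G)ᶜ] (1:G))) (by
    intro s
    constructor
    · intro h
      rcases ρ.germ hG s with h1 | h1
      · exact h1
      · exact absurd h1 h
    · intro h h2
      have h3 : (∅ : Set (Quotient ρ.rel)) ∈ map ρ.F (𝓝[(H : Set G)ᶜ] (1:G)) := by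
        have := inter_mem h h2
        rwa [inter_compl_self] at this
      exact (empty_notMem _) h3)
  have hq : ∀ s, s ∈ q ↔ ∀ᶠ v in 𝓝[(H : Set G)ᶜ] (1:G), ρ.F v ∈ s := fun s => Iff.rfl
  have hRq : q.map (ρ.R g) = q := by
    apply Ultrafilter.coe_le_coe.1
    intro s hs
    have hs' : ∀ᶠ v in 𝓝[(H : Set G)ᶜ] (1:G), ρ.F v ∈ s := hs
    change (ρ.R g) ⁻¹' s ∈ q
    rw [hq]
    have h1 := (ρ.conj_tendsto g).eventually hs'
    have h2 : ∀ᶠ v in 𝓝[(H : Set G)ᶜ] (1:G), ρ.r g < ρ.r v := by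
      rw [eventually_nhdsWithin_iff]
      filter_upwards [ρ.disc g] with v hv h using hv h
    filter_upwards [h1, h2] with v h3 h4
    change ρ.R g (ρ.F v) ∈ s
    rw [ρ.R_pos h4]
    have h5 : ρ.F (g⁻¹ * (v * g)) = ρ.F (v * g) := by
      apply ρ.F_mul
      rw [ρ.mul_right_eq h4, ρ.inv_eq]
      exact h4
    rw [← h5, ← mul_assoc]
    exact h3
  have h1 := katetov q (ρ.R g) (ρ.R_inj g) hRq
  have h2 : ∀ᶠ v in 𝓝[(H : Set G)ᶜ] (1:G), ρ.R g (ρ.F v) = ρ.F v := h1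
  rw [eventually_nhdsWithin_iff] at h2
  filter_upwards [h2, ρ.disc g, ρ.disc 1] with v h3 h4 h5 hv
  have h6 := h3 hv
  rw [ρ.R_pos (h4 hv), F_eq] at h6
  rcases h6 with h6 | ⟨-, h6⟩
  · have : v * g * v⁻¹ = 1 := by rw [h6]; simp
    rw [this]
    exact h5 hv
  · rw [ρ.mul_right_eq (h4 hv)] at h6
    exact h6

/-- the code of the right coset of `x` modulo the elements of rank below `i` -/
noncomputable def code (e : G → Ordinal.{u}) (i : Ordinal.{u}) (x : G) : Ordinal.{u} :=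
  sInf (e '' {y | ρ.r (x * y⁻¹) < i})

omit [IsTopologicalGroup G] in
lemma code_mul {e : G → Ordinal.{u}} {i : Ordinal.{u}} {x y : G} (h : ρ.r x < i) :
    ρ.code e i (x * y) = ρ.code e i y := by
  unfold code
  congr 2
  ext z
  change ρ.r (x * y * z⁻¹) < i ↔ ρ.r (y * z⁻¹) < i
  constructor
  · intro h2
    have : y * z⁻¹ = x⁻¹ * (x * y * z⁻¹) := by group
    rw [this]
    exact ρ.mul_lt (by rwa [ρ.inv_eq]) h2
  · intro h2
    rw [mul_assoc]
    exact ρ.mul_lt h h2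

omit [IsTopologicalGroup G] in
lemma code_ne {e : G → Ordinal.{u}} (he : Function.Injective e) {i : Ordinal.{u}} {x y : G}
    (h1 : ρ.r 1 < i) (h : ¬ ρ.r (x * y⁻¹) < i) : ρ.code e i x ≠ ρ.code e i y := by
  intro hc
  have hx : (e '' {z | ρ.r (x * z⁻¹) < i}).Nonempty := ⟨e x, x, by simpa using h1, rfl⟩
  have hy : (e '' {z | ρ.r (y * z⁻¹) < i}).Nonempty := ⟨e y, y, by simpa using h1, rfl⟩
  obtain ⟨a, ha, ha2⟩ := csInf_mem hx
  obtain ⟨b, hb, hb2⟩ := csInf_mem hy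
  have hab : a = b := he (by
    rw [ha2, hb2]
    exact hc)
  subst hab
  apply h
  have : x * y⁻¹ = (x * a⁻¹) * (y * a⁻¹)⁻¹ := by group
  rw [this]
  exact ρ.mul_lt ha (by rw [ρ.inv_eq]; exact hb)

end RelRank

lemma inv_event {G : Type*} [Group G] [TopologicalSpace G] [IsTopologicalGroup G] {P : G → Prop}
    (hP : ∀ᶠ y in 𝓝 (1:G), P y) : ∀ᶠ y in 𝓝 (1:G), P y⁻¹ := by
  have : Tendsto (fun y : G => y⁻¹) (𝓝 1) (𝓝 1) := by
    have := (continuous_inv (G := G)).tendsto 1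
    rwa [inv_one] at this
  exact this.eventually hP

lemma sq_event {G : Type*} [Group G] [TopologicalSpace G] [IsTopologicalGroup G] {P : G → Prop}
    (hP : ∀ᶠ y in 𝓝 (1:G), P y) : ∀ᶠ y in 𝓝 (1:G), P (y * y) := by
  have : Tendsto (fun y : G => y * y) (𝓝 1) (𝓝 1) := by
    have h1 : Continuous (fun y : G => y * y) := by fun_prop
    have := h1.tendsto 1
    rwa [one_mul] at this
  exact this.eventually hP

theorem RelRank.squares {G : Type u} [Group G] [TopologicalSpace G] [IsTopologicalGroup G]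
    {H : Subgroup G} (ρ : RelRank G H) (hG : NoRes G)
    (hC : ∀ x : G, ∀ᶠ y in 𝓝 (1:G), x * y = y * x)
    (e : G → Ordinal.{u}) (he : Function.Injective e) : ∀ᶠ y in 𝓝 (1:G), y * y ∈ H := by
  by_contra hcon
  have hfr : ∃ᶠ y in 𝓝 (1:G), ¬ y * y ∈ H := by
    rwa [Filter.not_eventually] at hcon
  let A : Set G := {y | ρ.code e (ρ.r (y * y)) y < ρ.code e (ρ.r (y * y)) y⁻¹}
  obtain ⟨x, hx⟩ := exists_loc_const hG A
  obtain ⟨y, ⟨⟨⟨⟨hy, h1⟩, h2⟩, h3⟩, h4⟩, h5⟩ :=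
    ((((hfr.and_eventually (sq_event (ρ.disc x))).and_eventually
      (sq_event (ρ.disc 1))).and_eventually
      ((hC x).and (inv_event (hC x)))).and_eventually hx).and_eventually (inv_event hx) |>.exists
  have hrx := h1 hy
  have hr1 := h2 hy
  -- the general claim
  have key : ∀ y : G, ρ.r x < ρ.r (y * y) → x * y = y * x → (x * y ∈ A ↔ y ∈ A) := by
    intro y hrx hxy
    have hyx : x⁻¹ * y⁻¹ = (x * y)⁻¹ := by rw [hxy, mul_inv_rev]
    have a1 : x * y * (x * y) = x * (x * (y * y)) := by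
      calc x * y * (x * y) = x * (y * x) * y := by group
        _ = x * (x * y) * y := by rw [hxy]
        _ = _ := by group
    have a2 : ρ.r (x * y * (x * y)) = ρ.r (y * y) := by
      rw [a1]
      have := ρ.mul_left_eq hrx
      rw [ρ.mul_left_eq (by rw [this]; exact hrx), this]
    change ρ.code e (ρ.r (x * y * (x * y))) (x * y) < ρ.code e (ρ.r (x * y * (x * y))) (x * y)⁻¹ ↔
      ρ.code e (ρ.r (y * y)) y < ρ.code e (ρ.r (y * y)) y⁻¹
    rw [a2, ρ.code_mul hrx, ← hyx, ρ.code_mul (by rw [ρ.inv_eq]; exact hrx)]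
  have hyy : ρ.r (y⁻¹ * y⁻¹) = ρ.r (y * y) := by
    rw [← mul_inv_rev, ρ.inv_eq]
  have c1 := key y hrx h3.1
  have c2 := key y⁻¹ (by rw [hyy]; exact hrx) h3.2
  have c3 : y ∈ A ↔ y⁻¹ ∈ A := by rw [← c1, ← c2, h4, h5]
  have hne : ρ.code e (ρ.r (y * y)) y ≠ ρ.code e (ρ.r (y * y)) y⁻¹ := by
    apply ρ.code_ne he hr1
    rw [inv_inv]
    exact lt_irrefl _
  have c4 : y ∈ A ↔ ρ.code e (ρ.r (y * y)) y < ρ.code e (ρ.r (y * y)) y⁻¹ := Iff.rfl
  have c5 : y⁻¹ ∈ A ↔ ρ.code e (ρ.r (y * y)) y⁻¹ < ρ.code e (ρ.r (y * y)) y := by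
    change ρ.code e (ρ.r (y⁻¹ * y⁻¹)) y⁻¹ < ρ.code e (ρ.r (y⁻¹ * y⁻¹)) y⁻¹⁻¹ ↔ _
    rw [inv_inv, hyy]
  rw [c4, c5] at c3
  rcases lt_or_gt_of_ne hne with h | h
  · exact absurd (c3.1 h) (not_lt_of_gt h)
  · exact absurd (c3.2 h) (not_lt_of_gt h)

end H473
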