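import Mathlib
import Pool.Agent.Helper473.RelRank

/-! Small squares in a countable Boolean subgroup are trivial. -/

open Set Filter Topology Cardinal

namespace H473

universe u

theorem exists_rankFn_boolean {H : Type u} [Group H] [TopologicalSpace H] [T1Space H]
    [Countable H] (hH : ∀ x : H, x * x = 1) : Nonempty (RankFn H) := by
  have hcomm : ∀ x y : H, x * y = y * x := by
    intro x y
    have h1 := hH (x * y)
    have e1 : x⁻¹ = x := inv_eq_of_mul_eq_one_left (hH x)
    have e2 : y⁻¹ = y := inv_eq_of_mul_eq_one_left (hH y)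
    have e3 : (x * y)⁻¹ = x * y := inv_eq_of_mul_eq_one_left h1
    rw [← e3, mul_inv_rev, e1, e2]
  let _ : CommGroup H := { (inferInstance : Group H) with mul_comm := hcomm }
  obtain ⟨g, hg⟩ := exists_surjective_nat H
  let K : ℕ → Subgroup H := fun n => Subgroup.closure (g '' Iic n)
  have hKmono : Monotone K := by
    intro m n hmn
    apply Subgroup.closure_mono
    exact image_mono (Iic_subset_Iic.2 hmn)
  have hKfin : ∀ n, (K n : Set H).Finite := by
    intro n
    have h1 : Group.FG (K n) := by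
      rw [Group.fg_iff_subgroup_fg, Subgroup.fg_iff]
      exact ⟨_, rfl, (finite_Iic n).image g⟩
    have h2 : IsMulTorsion (K n) := by
      intro x
      rw [isOfFinOrder_iff_pow_eq_one]
      refine ⟨2, by norm_num, ?_⟩
      apply Subtype.ext
      rw [pow_two]
      exact hH x
    exact CommGroup.finite_of_fg_isMulTorsion (K n) h2
  have hne : ∀ x, ∃ n, x ∈ K n := by
    intro x
    obtain ⟨n, rfl⟩ := hg x
    exact ⟨n, Subgroup.subset_closure ⟨n, self_mem_Iic, rfl⟩⟩
  classical
  let r : H → ℕ := fun x => Nat.find (hne x)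
  have hr : ∀ x n, r x ≤ n ↔ x ∈ K n := by
    intro x n
    constructor
    · intro h
      exact hKmono h (Nat.find_spec (hne x))
    · intro h
      exact Nat.find_min' _ h
  refine ⟨⟨fun x => (r x : Ordinal.{u}), ?_, ?_, ?_⟩⟩
  · intro x y
    have : r (x * y) ≤ max (r x) (r y) := by
      rw [hr]
      exact (K _).mul_mem ((hr _ _).1 (le_max_left _ _)) ((hr _ _).1 (le_max_right _ _))
    rcases le_max_iff.1 this with h | h
    · exact le_max_of_le_left (by exact_mod_cast h)
    · exact le_max_of_le_right (by exact_mod_cast h)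
  · intro x
    have : r x⁻¹ = r x := by
      apply le_antisymm
      · rw [hr]; exact (K _).inv_mem ((hr _ _).1 le_rfl)
      · rw [hr]
        have := (K _).inv_mem ((hr x⁻¹ _).1 le_rfl)
        rwa [inv_inv] at this
    change ((r x⁻¹ : ℕ) : Ordinal.{u}) = _
    rw [this]
  · intro x
    have h1 : ((K (r x) : Set H) \ {1})ᶜ ∈ 𝓝 (1:H) := by
      apply ((hKfin (r x)).subset sdiff_subset).isClosed.isOpen_compl.mem_nhds
      simp
    filter_upwards [h1] with v hv hv1
    have h2 : ¬ r v ≤ r x := by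
      rw [hr]
      intro h3
      exact hv ⟨h3, hv1⟩
    push Not at h2
    exact_mod_cast h2

/-- the component of `g` in `H` with respect to a choice of left coset representatives -/
noncomputable def part {G : Type u} [Group G] (H : Subgroup G) (g : G) : H :=
  ⟨((g : G ⧸ H).out)⁻¹ * g, QuotientGroup.eq.1 (Quotient.out_eq' (g : G ⧸ H))⟩

lemma part_mul {G : Type u} [Group G] (H : Subgroup G) (g : G) (h : H) :
    part H (g * h) = part H g * h := by
  have h1 : ((g * h : G) : G ⧸ H) = (g : G ⧸ H) := QuotientGroup.mk_mul_of_mem g h.2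
  apply Subtype.ext
  change (((g * h : G) : G ⧸ H).out)⁻¹ * (g * h) = ((g : G ⧸ H).out)⁻¹ * g * h
  rw [h1, mul_assoc]

theorem squares_one {G : Type u} [Group G] [TopologicalSpace G] [IsTopologicalGroup G]
    (hG : NoRes G) (H : Subgroup G) [Countable H] (hH : ∀ x ∈ H, x * x = 1)
    (hsq : ∀ᶠ y in 𝓝 (1:G), y * y ∈ H) (hC : ∀ x : G, ∀ᶠ y in 𝓝 (1:G), x * y = y * x) :
    ∀ᶠ y in 𝓝 (1:G), y * y = 1 := by
  have hT2 : T2Space G := T2_of_NoRes hG
  have hH' : ∀ x : H, x * x = 1 := fun x => Subtype.ext (hH x x.2)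
  have hcomm : ∀ x y : H, x * y = y * x := by
    intro x y
    have h1 := hH' (x * y)
    have e1 : x⁻¹ = x := inv_eq_of_mul_eq_one_left (hH' x)
    have e2 : y⁻¹ = y := inv_eq_of_mul_eq_one_left (hH' y)
    have e3 : (x * y)⁻¹ = x * y := inv_eq_of_mul_eq_one_left h1
    rw [← e3, mul_inv_rev, e1, e2]
  obtain ⟨σ⟩ := exists_rankFn_boolean hH'
  obtain ⟨e0, he0⟩ := exists_injective_nat H
  let e : H → Ordinal.{u} := fun x => (e0 x : Ordinal.{u})
  have he : Function.Injective e := by
    intro x y hxy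
    apply he0
    have h : (e0 x : Ordinal.{u}) = (e0 y : Ordinal.{u}) := hxy
    exact_mod_cast h
  have hdisc : ∀ w : H, ∀ᶠ y in 𝓝 (1:G), ∀ hy : y ∈ H, y ≠ 1 → σ.r w < σ.r ⟨y, hy⟩ := by
    intro w
    have h1 := σ.disc w
    rw [nhds_subtype_eq_comap] at h1
    obtain ⟨U, hU, hUs⟩ := mem_comap.1 h1
    have hU' : U ∈ 𝓝 (1:G) := hU
    filter_upwards [hU'] with y hy hyH hy1
    apply hUs (show (⟨y, hyH⟩ : H) ∈ Subtype.val ⁻¹' U from hy)
    intro h
    exact hy1 (congrArg Subtype.val h)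
  by_contra hcon
  have hfr : ∃ᶠ y in 𝓝 (1:G), ¬ y * y = 1 := by
    rwa [Filter.not_eventually] at hcon
  let A : Set G := {z | σ.code e (σ.r (part H (z * z))) (part H z) <
    σ.code e (σ.r (part H (z * z))) (part H z * part H (z * z))}
  obtain ⟨x, hx⟩ := exists_loc_const hG A
  obtain ⟨y, ⟨⟨⟨⟨⟨hy, h1⟩, h2⟩, h3⟩, h4⟩, h5⟩, h6⟩ :=
    (((((hfr.and_eventually (sq_event (hdisc (part H (x * x))))).and_eventually
      (sq_event (hdisc 1))).and_eventually (hC x)).and_eventually hx).and_eventually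
      (inv_event hx)).and_eventually hsq |>.exists
  have hw := h1 h6 hy
  have hr1 := h2 h6 hy
  set h : H := ⟨y * y, h6⟩ with hh
  set w : H := part H (x * x) with hwdef
  set k : H := part H (x * y) with hkdef
  have hyyyy : (y * y) * (y * y) = 1 := hH _ h6
  -- the two elements
  have s1 : x * y * (x * y) = x * x * (h : G) := by
    change x * y * (x * y) = x * x * (y * y)
    calc x * y * (x * y) = x * (y * x) * y := by group
      _ = x * (x * y) * y := by rw [h3]
      _ = _ := by group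
  have s2 : x * y⁻¹ = x * y * (h : G) := by
    change x * y⁻¹ = x * y * (y * y)
    have : y⁻¹ = y * (y * y) := by
      apply inv_eq_of_mul_eq_one_right
      rw [← mul_assoc]
      exact hyyyy
    rw [this]
    group
  have hyx : y⁻¹ * x = x * y⁻¹ := by
    calc y⁻¹ * x = y⁻¹ * (x * y) * y⁻¹ := by group
      _ = y⁻¹ * (y * x) * y⁻¹ := by rw [h3]
      _ = _ := by group
  have s3 : x * y⁻¹ * (x * y⁻¹) = x * x * (h : G) := by
    change x * y⁻¹ * (x * y⁻¹) = x * x * (y * y)
    have h7 : y⁻¹ * y⁻¹ = y * y := by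
      rw [← mul_inv_rev]
      exact inv_eq_of_mul_eq_one_left hyyyy
    calc x * y⁻¹ * (x * y⁻¹) = x * (y⁻¹ * x) * y⁻¹ := by group
      _ = x * (x * y⁻¹) * y⁻¹ := by rw [hyx]
      _ = x * x * (y⁻¹ * y⁻¹) := by group
      _ = _ := by rw [h7]
  have p1 : part H (x * y * (x * y)) = w * h := by rw [s1, part_mul]
  have p3 : part H (x * y⁻¹ * (x * y⁻¹)) = w * h := by rw [s3, part_mul]
  have p2 : part H (x * y⁻¹) = k * h := by rw [s2, part_mul]
  have r1 : σ.r (w * h) = σ.r h := σ.mul_left_eq hw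
  have hhh : h * h = 1 := hH' h
  have m1 : x * y ∈ A ↔ σ.code e (σ.r h) k < σ.code e (σ.r h) (k * h) := by
    change σ.code e (σ.r (part H (x * y * (x * y)))) k <
      σ.code e (σ.r (part H (x * y * (x * y)))) (k * part H (x * y * (x * y))) ↔ _
    rw [p1, r1]
    have : k * (w * h) = w * (k * h) := by rw [← mul_assoc, hcomm k w, mul_assoc]
    rw [this, σ.code_mul hw]
  have m2 : x * y⁻¹ ∈ A ↔ σ.code e (σ.r h) (k * h) < σ.code e (σ.r h) k := by
    change σ.code e (σ.r (part H (x * y⁻¹ * (x * y⁻¹)))) (part H (x * y⁻¹)) <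
      σ.code e (σ.r (part H (x * y⁻¹ * (x * y⁻¹))))
        (part H (x * y⁻¹) * part H (x * y⁻¹ * (x * y⁻¹))) ↔ _
    rw [p3, r1, p2]
    have : k * h * (w * h) = w * k := by
      rw [hcomm w h, ← mul_assoc, mul_assoc k h h, hhh, mul_one, hcomm]
    rw [this, σ.code_mul hw]
  have hne : σ.code e (σ.r h) k ≠ σ.code e (σ.r h) (k * h) := by
    apply σ.code_ne he hr1
    have : k * (k * h)⁻¹ = k * h⁻¹ * k⁻¹ := by group
    rw [this, hcomm k h⁻¹, mul_assoc, mul_inv_cancel, mul_one, σ.inv_eq]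
    exact lt_irrefl _
  have h7 : x * y ∈ A ↔ x * y⁻¹ ∈ A := by rw [h4, h5]
  rw [m1, m2] at h7
  rcases lt_or_gt_of_ne hne with h8 | h8
  · exact absurd (h7.1 h8) (not_lt_of_gt h8)
  · exact absurd (h7.2 h8) (not_lt_of_gt h8)

end H473
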