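import Mathlib
import Pool.Agent.Helper473.SqOne

/-! Every irresolvable group has a countable open subgroup. -/

open Set Filter Topology Cardinal Pointwise

namespace H473

universe u

section CoreSub

variable {G : Type u} [Group G] [TopologicalSpace G] [IsTopologicalGroup G]

/-- a subgroup that is open in every countable subgroup containing it -/
def IsCore (H : Subgroup G) : Prop :=
  ∀ C : Subgroup G, Countable C → H ≤ C → ∀ᶠ v in 𝓝 (1:G), v ∈ C → v ∈ H

theorem exists_core (hG : NoRes G) :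
    ∃ H : Subgroup G, Countable H ∧ (∀ x ∈ H, x * x = 1) ∧ IsCore H := by
  have hT2 : T2Space G := T2_of_NoRes hG
  let P : Subgroup G → Set (Ultrafilter G) := fun C =>
    {p | (p : Filter G) ≤ cofinite ∧ (p : Filter G) ≤ 𝓝 1 ∧ (C : Set G) ∈ p}
  let Q : Set (Ultrafilter G) := {p | ∃ C : Subgroup G, Countable C ∧ p ∈ P C}
  have hjoin : ∀ Q' ⊆ Q, Q'.Countable → ∃ C : Subgroup G, Countable C ∧ Q' ⊆ P C := by
    intro Q' hQ' hc
    have h1 : ∀ p : Q', ∃ C : Subgroup G, Countable C ∧ p.1 ∈ P C := fun p => hQ' p.2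
    choose C hC1 hC2 using h1
    have hct : Countable Q' := hc
    have h2 : (⋃ p, (C p : Set G)).Countable := countable_iUnion (fun p => hC1 p)
    refine ⟨Subgroup.closure (⋃ p, (C p : Set G)), closure_countable h2, ?_⟩
    intro p hp
    obtain ⟨a1, a2, a3⟩ := hC2 ⟨p, hp⟩
    refine ⟨a1, a2, mem_of_superset a3 ?_⟩
    exact (subset_iUnion (fun p => (C p : Set G)) ⟨p, hp⟩).trans Subgroup.subset_closure
  have hfin : Q.Finite := by
    by_contra hinf
    have hinf' : Q.Infinite := hinf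
    obtain ⟨f, hf⟩ : ∃ f : ℕ → Ultrafilter G, Function.Injective f ∧ ∀ n, f n ∈ Q :=
      ⟨fun n => (hinf'.natEmbedding _ n : Ultrafilter G),
        fun a b hab => (hinf'.natEmbedding _).injective (Subtype.ext hab),
        fun n => (hinf'.natEmbedding _ n).2⟩
    obtain ⟨C, hC, hCP⟩ := hjoin (range f) (by rintro _ ⟨n, rfl⟩; exact hf.2 n) (countable_range f)
    apply hG
    apply countable_subgroup C
    exact (infinite_range_of_injective hf.1).mono hCP
  obtain ⟨H0, hH0, hH0P⟩ := hjoin Q subset_rfl hfin.countable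
  have hcore0 : IsCore H0 := by
    intro C hC hle
    change {v : G | v ∈ C → v ∈ H0} ∈ 𝓝 (1:G)
    refine nhds_of_UF (A := {v : G | v ∈ C → v ∈ H0}) (fun _ => H0.one_mem) ?_
    intro p hp
    obtain ⟨a1, a2, -⟩ := hp
    by_cases h : (C : Set G) ∈ p
    · have h1 : p ∈ P H0 := hH0P ⟨C, hC, a1, a2, h⟩
      exact mem_of_superset h1.2.2 (fun x hx _ => hx)
    · have h1 := Ultrafilter.compl_mem_iff_notMem.2 h
      exact mem_of_superset h1 (fun x hx hx2 => absurd hx2 hx)
  have hres0 : NoRes H0 := fun h => hG (res_of_subgroup H0 h)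
  obtain ⟨K, hK, hK2⟩ := open_boolean hres0
  refine ⟨K.map H0.subtype, ?_, ?_, ?_⟩
  · have h1 : ((K.map H0.subtype : Subgroup G) : Set G) ⊆ (H0 : Set G) := by
      rintro _ ⟨k, _, rfl⟩
      exact k.2
    exact (Set.countable_coe_iff.1 hH0).mono h1
  · rintro _ ⟨k, hk, rfl⟩
    exact congrArg Subtype.val (hK2 k hk)
  · intro C hC hle
    have h1 : ∀ᶠ v in 𝓝 (1:G), v ∈ H0 → v ∈ K.map H0.subtype := by
      have h2 : (K : Set H0) ∈ 𝓝 (1:H0) := hK.mem_nhds K.one_mem
      rw [nhds_subtype_eq_comap] at h2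
      obtain ⟨U, hU, hUs⟩ := mem_comap.1 h2
      have hU' : U ∈ 𝓝 (1:G) := hU
      filter_upwards [hU'] with v hv hvH
      exact ⟨⟨v, hvH⟩, hUs hv, rfl⟩
    have h3 : Countable (Subgroup.closure ((C : Set G) ∪ H0)) :=
      closure_countable (Countable.union hC hH0)
    have h4 := hcore0 _ h3 (fun x hx => Subgroup.subset_closure (Or.inr hx))
    filter_upwards [h1, h4] with v h5 h6 h7
    exact h5 (h6 (Subgroup.subset_closure (Or.inl h7)))

end CoreSub

/-- a minimal configuration for a subgroup that is not open -/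
structure Bad (G : Type u) [Group G] [TopologicalSpace G] (H : Subgroup G) : Prop where
  nores : NoRes G
  ctb : Countable H
  bool : ∀ x ∈ H, x * x = 1
  unc : ℵ₀ < #G
  notopen : ¬ ∀ᶠ v in 𝓝 (1:G), v ∈ H
  small : ∀ T : Subgroup G, H ≤ T → #T < #G → ∀ᶠ v in 𝓝 (1:G), v ∈ T → v ∈ H

theorem exists_bad {G : Type u} [Group G] [TopologicalSpace G] [IsTopologicalGroup G]
    (hG : NoRes G) (hunc : ∀ U ∈ 𝓝 (1:G), ¬ U.Countable) :
    ∃ (S : Subgroup G) (H : Subgroup S), Bad S H := by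
  obtain ⟨H, hHc, hHb, hcore⟩ := exists_core hG
  have hne : {c : Cardinal.{u} | ∃ S : Subgroup G, H ≤ S ∧
      (¬ ∀ᶠ v in 𝓝 (1:G), v ∈ S → v ∈ H) ∧ #S = c}.Nonempty := by
    refine ⟨#(⊤ : Subgroup G), ⊤, le_top, ?_, rfl⟩
    intro h
    refine hunc {v | v ∈ (⊤ : Subgroup G) → v ∈ H} h ?_
    refine (Set.countable_coe_iff.1 hHc).mono ?_
    intro v hv
    exact hv (Subgroup.mem_top v)
  have hwf : WellFounded ((· < ·) : Cardinal.{u} → Cardinal.{u} → Prop) := wellFounded_lt
  obtain ⟨κ, ⟨S, hS1, hS2, hSc⟩, hmin⟩ := hwf.has_min _ hne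
  have hunc' : ℵ₀ < #S := by
    by_contra hle
    push Not at hle
    exact hS2 (hcore S (mk_le_aleph0_iff.1 hle) hS1)
  refine ⟨S, H.subgroupOf S, fun h => hG (res_of_subgroup S h), ?_, ?_, hunc', ?_, ?_⟩
  · have hinj : Function.Injective (fun x : H.subgroupOf S => (⟨((x : S) : G), x.2⟩ : H)) := by
      intro x y hxy
      apply Subtype.ext
      apply Subtype.ext
      have h1 : (⟨((x : S) : G), x.2⟩ : H) = ⟨((y : S) : G), y.2⟩ := hxy
      have h2 : ((x : S) : G) = ((y : S) : G) := Subtype.mk.inj h1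
      exact h2
    exact hinj.countable
  · intro x hx
    apply Subtype.ext
    exact hHb _ hx
  · intro h
    apply hS2
    have h2 : {v : S | v ∈ H.subgroupOf S} ∈ 𝓝 (1:S) := h
    rw [nhds_subtype_eq_comap] at h2
    obtain ⟨U, hU, hUs⟩ := mem_comap.1 h2
    have hU' : U ∈ 𝓝 (1:G) := hU
    filter_upwards [hU'] with v hv hvS
    exact hUs (show (⟨v, hvS⟩ : S) ∈ Subtype.val ⁻¹' U from hv)
  · intro T hT hTc
    by_contra hTo
    have h2 : #(T.map S.subtype) = #T := by
      have h3 : Function.Injective S.subtype := Subtype.val_injective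
      exact (mk_congr (T.equivMapOfInjective S.subtype h3).toEquiv).symm
    have h3 : #(T.map S.subtype) < κ := by
      rw [h2, ← hSc]
      exact hTc
    refine hmin _ ⟨T.map S.subtype, ?_, ?_, rfl⟩ h3
    · intro x hx
      exact ⟨⟨x, hS1 hx⟩, hT hx, rfl⟩
    · intro h4
      apply hTo
      have h5 : Tendsto (fun x : S => (x : G)) (𝓝 1) (𝓝 1) := by
        have h6 : Continuous (fun x : S => (x : G)) := by fun_prop
        exact h6.tendsto 1
      filter_upwards [h5.eventually h4] with v hv hvT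
      exact hv ⟨v, hvT, rfl⟩

section Bad

variable {G : Type u} [Group G] [TopologicalSpace G] [IsTopologicalGroup G] {H : Subgroup G}

omit [IsTopologicalGroup G] in
theorem Bad.exists_rank (hb : Bad G H) (L : Set G) (hL : #L < #G) (φ : List G → G) :
    ∃ ρ : RelRank G H, (∀ x ∈ L, ∀ y, ρ.r x ≤ ρ.r y) ∧
      (∀ l i, (∀ x ∈ l, ρ.r x ≤ i) → ρ.r (φ l) ≤ i) := by
  have hHc : #H < #G := lt_of_le_of_lt (mk_le_aleph0_iff.2 hb.ctb) hb.unc
  have hL' : #(L ∪ (H : Set G) : Set G) < #G :=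
    (mk_union_le _ _).trans_lt (add_lt_of_lt hb.unc.le hL hHc)
  obtain ⟨r, h1, h2, h3, h4, h5⟩ := H473.exists_rank hb.unc (L ∪ (H : Set G)) hL' φ
  refine ⟨⟨r, h1, h2, fun x hx => h3 x (Or.inr hx), ?_⟩, fun x hx => h3 x (Or.inl hx), h4⟩
  intro x
  let T : Subgroup G :=
    { carrier := {y | r y ≤ r x}
      mul_mem' := fun {a b} ha hb => (h1 a b).trans (max_le ha hb)
      one_mem' := by
        have := h1 x x⁻¹
        rw [mul_inv_cancel, h2, max_self] at this
        exact this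
      inv_mem' := fun {a} ha => by
        change r a⁻¹ ≤ r x
        rw [h2]
        exact ha }
  have h6 := hb.small T (fun y hy => h3 y (Or.inr hy) x) (h5 x)
  filter_upwards [h6] with v hv hvH
  by_contra hcon
  push Not at hcon
  exact hvH (hv hcon)

/-- all centralizers open -/
theorem Bad.false_of_comm (hb : Bad G H) (hC : ∀ x : G, ∀ᶠ y in 𝓝 (1:G), x * y = y * x) :
    False := by
  obtain ⟨e, he, -⟩ := exists_enum G hb.unc
  have h0 : #(∅ : Set G) < #G := by
    rw [mk_eq_zero]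
    exact lt_trans aleph0_pos hb.unc
  obtain ⟨ρ, -, -⟩ := hb.exists_rank ∅ h0 (fun _ => 1)
  have h1 := ρ.squares hb.nores hC e he
  have : Countable H := hb.ctb
  have h2 := squares_one hb.nores H hb.bool h1 hC
  obtain ⟨K, hK, hKc⟩ := exists_open_comm h2
  have hKres : NoRes K := fun h => hb.nores (res_of_subgroup K h)
  obtain ⟨U, hU, hUc⟩ := good_of_comm (G := K) (fun x y => Subtype.ext (hKc x x.2 y y.2)) hKres
  have hU2 : Subtype.val '' U ∈ 𝓝 (1:G) := hK.isOpenMap_subtype_val.image_mem_nhds hU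
  have hU3 : (Subtype.val '' U : Set G).Countable := hUc.image _
  have h3 : Countable (Subgroup.closure ((Subtype.val '' U : Set G) ∪ H)) :=
    closure_countable (hU3.union hb.ctb)
  have h4 := hb.small _ (fun x hx => Subgroup.subset_closure (Or.inr hx))
    (lt_of_le_of_lt (mk_le_aleph0_iff.2 h3) hb.unc)
  apply hb.notopen
  filter_upwards [h4, hU2] with v h5 h6
  exact h5 (Subgroup.subset_closure (Or.inl h6))

theorem Bad.propF (hb : Bad G H) (s : Finset G) {V0 : Set G}
    (hV0 : V0 ∈ 𝓝 (1:G)) : ¬ #{v | v ∈ V0 ∧ ∀ g ∈ s, v * g = g * v} < #G := by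
  classical
  intro hlt
  obtain ⟨V1, hV1, hV1s⟩ := exists_div_nhds hV0
  set s' : Finset G := insert 1 s with hs'
  let gs : List G := s'.toList
  let φ : List G → G := fun l =>
    if h : ∃ v ∈ V1, gs.map (fun g => v * g * v⁻¹) = l then h.choose else 1
  obtain ⟨ρ, h1, h2⟩ := hb.exists_rank {v | v ∈ V0 ∧ ∀ g ∈ s, v * g = g * v} hlt φ
  have h3 : ∀ᶠ v in 𝓝 (1:G), ∀ g ∈ s', v ∉ H → ρ.r (v * g * v⁻¹) < ρ.r v := by
    rw [Filter.eventually_all_finset]
    intro g _
    exact ρ.propP hb.nores g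
  have h4 : ∃ v ∈ V1, v ∉ H ∧ (∀ g ∈ s', ρ.r (v * g * v⁻¹) < ρ.r v) ∧ ρ.r 1 < ρ.r v := by
    by_contra hcon
    push Not at hcon
    apply hb.notopen
    filter_upwards [hV1, h3, ρ.disc 1] with v h5 h6 h7
    by_contra hv
    exact absurd (h7 hv) (not_lt_of_ge (hcon v h5 hv (fun g hg => h6 g hg hv)))
  obtain ⟨v, hv, hv1, hv2, hv3⟩ := h4
  obtain ⟨g0, hg0, hmax⟩ := Finset.exists_max_image s' (fun g => ρ.r (v * g * v⁻¹))
    ⟨1, Finset.mem_insert_self 1 s⟩
  have hex : ∃ w ∈ V1, gs.map (fun g => w * g * w⁻¹) = gs.map (fun g => v * g * v⁻¹) :=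
    ⟨v, hv, rfl⟩
  have hφ : φ (gs.map (fun g => v * g * v⁻¹)) = hex.choose := by
    change (if h : ∃ w ∈ V1, gs.map (fun g => w * g * w⁻¹) = gs.map (fun g => v * g * v⁻¹)
      then h.choose else 1) = _
    rw [dif_pos hex]
  obtain ⟨hw1, hw2⟩ := hex.choose_spec
  set w := hex.choose with hw
  have h5 : ρ.r w ≤ ρ.r (v * g0 * v⁻¹) := by
    rw [← hφ]
    apply h2
    intro x hx
    rw [List.mem_map] at hx
    obtain ⟨g, hg, rfl⟩ := hx
    exact hmax g (Finset.mem_toList.1 hg)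
  have h6 : ρ.r w < ρ.r v := h5.trans_lt (hv2 g0 hg0)
  have h7 : w⁻¹ * v ∈ {v | v ∈ V0 ∧ ∀ g ∈ s, v * g = g * v} := by
    refine ⟨hV1s w hw1 v hv, ?_⟩
    intro g hg
    have hg' : g ∈ gs := Finset.mem_toList.2 (Finset.mem_insert_of_mem hg)
    have h8 : w * g * w⁻¹ = v * g * v⁻¹ := (List.map_inj_left.1 hw2) g hg'
    have h9 : g * w⁻¹ * v = w⁻¹ * v * g := by
      calc g * w⁻¹ * v = w⁻¹ * (w * g * w⁻¹) * v := by group
        _ = w⁻¹ * (v * g * v⁻¹) * v := by rw [h8]
        _ = _ := by group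
    rw [← mul_assoc]
    exact h9.symm
  have h8 : ρ.r (w⁻¹ * v) ≤ ρ.r 1 := h1 _ h7 1
  have h9 : ρ.r v < ρ.r v := by
    have h10 : v = w * (w⁻¹ * v) := by group
    calc ρ.r v = ρ.r (w * (w⁻¹ * v)) := by rw [← h10]
      _ < ρ.r v := ρ.mul_lt h6 (h8.trans_lt hv3)
  exact lt_irrefl _ h9

end Bad

theorem Bad.false {G : Type u} [Group G] [t : TopologicalSpace G] [IsTopologicalGroup G]
    {H : Subgroup G} (hb : Bad G H) : False := by
  let B := cBasis G
  have hbas : ∀ U : Set G, U ∈ @nhds G B.topology 1 ↔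
      ∃ V ∈ 𝓝 (1:G), ∃ s : Finset G, {v | v ∈ V ∧ ∀ g ∈ s, v * g = g * v} ⊆ U := by
    intro U
    rw [B.nhds_one_hasBasis.mem_iff]
    constructor
    · rintro ⟨_, ⟨V, hV, s, rfl⟩, h⟩
      exact ⟨V, hV, s, h⟩
    · rintro ⟨V, hV, s, h⟩
      exact ⟨_, ⟨V, hV, s, rfl⟩, h⟩
  have hle1 : @nhds G B.topology 1 ≤ @nhds G t 1 := by
    intro U hU
    rw [hbas]
    exact ⟨U, hU, ∅, fun v hv => hv.1⟩
  have hle : B.topology ≤ t := by
    rw [TopologicalSpace.le_def]
    intro O hO
    refine (@isOpen_iff_mem_nhds G B.topology O).2 ?_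
    intro x hx
    have h1 : (fun y => x * y) ⁻¹' O ∈ @nhds G t 1 := (tends_mul x) (hO.mem_nhds hx)
    have h2 := hle1 h1
    have h3 : @nhds G B.topology x = map (fun y => x * y) (@nhds G B.topology 1) := by
      have := @map_mul_left_nhds_one G B.topology _ _ x
      exact this.symm
    rw [h3]
    exact h2
  have hres' : @NoRes G B.topology := by
    rintro ⟨A, hA, hA'⟩
    apply hb.nores
    exact ⟨A, fun x => closure.mono hle (hA x), fun x => closure.mono hle (hA' x)⟩
  have hunc' : ∀ U ∈ @nhds G B.topology 1, ¬ U.Countable := by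
    intro U hU hUc
    rw [hbas] at hU
    obtain ⟨V, hV, s, hs⟩ := hU
    apply hb.propF s hV
    refine lt_of_le_of_lt ?_ hb.unc
    rw [le_aleph0_iff_set_countable]
    exact hUc.mono hs
  have hcent' : ∀ x : G, ∀ᶠ y in @nhds G B.topology 1, x * y = y * x := by
    intro x
    change {y | x * y = y * x} ∈ @nhds G B.topology 1
    rw [hbas]
    refine ⟨univ, univ_mem, {x}, ?_⟩
    rintro v ⟨-, hv⟩
    exact (hv x (Finset.mem_singleton_self x)).symm
  obtain ⟨S, H', hbad⟩ := @exists_bad G _ B.topology _ hres' hunc'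
  refine @Bad.false_of_comm S _ (@instTopologicalSpaceSubtype G _ B.topology)
    (@Subgroup.instIsTopologicalGroupSubtypeMem G B.topology _ _ S) H' hbad ?_
  intro x
  have h1 := hcent' (x : G)
  rw [@nhds_subtype_eq_comap G B.topology]
  refine mem_comap.2 ⟨_, h1, ?_⟩
  intro y hy
  exact Subtype.ext hy

/-- Every group topology without a partition into two dense sets has a countable
neighbourhood of the identity. -/
theorem good_all (G : Type u) [Group G] : Good G := by
  intro _ _ hG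
  by_contra hcon
  push Not at hcon
  obtain ⟨S, H, hb⟩ := exists_bad hG hcon
  exact hb.false

end H473
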