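import Mathlib
import Pool.Agent.Helper473.Struct

/-! Partition into infinitely many dense sets. -/

open Set Filter Topology

namespace H473

/-- `G` can be split into countably infinitely many dense sets. -/
def OmegaRes (G : Type*) [TopologicalSpace G] : Prop :=
  ∃ c : G → ℕ, ∀ n, Dense {x | c x = n}

theorem omega_of_subgroup {G : Type*} [Group G] [TopologicalSpace G] [IsTopologicalGroup G]
    (H : Subgroup G) (h : OmegaRes H) : OmegaRes G := by
  classical
  obtain ⟨c, hc⟩ := h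
  let r : G → G := fun x => Quotient.out (x : G ⧸ H)
  have hr : ∀ x, (r x)⁻¹ * x ∈ H := by
    intro x
    apply QuotientGroup.eq.1
    exact QuotientGroup.out_eq' _
  have hrr : ∀ x (a : H), r (r x * a) = r x := by
    intro x a
    have h1 : ((r x * a : G) : G ⧸ H) = (x : G ⧸ H) := by
      rw [QuotientGroup.mk_mul_of_mem _ a.2]
      exact QuotientGroup.out_eq' _
    change Quotient.out ((r x * a : G) : G ⧸ H) = Quotient.out (x : G ⧸ H)
    rw [h1]
  refine ⟨fun x => c ⟨(r x)⁻¹ * x, hr x⟩, ?_⟩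
  intro n x
  let f : H → G := fun h => r x * h
  have hf : Continuous f := by fun_prop
  have h1 : f ⟨(r x)⁻¹ * x, hr x⟩ = x := by simp [f]
  have h2 : f ⟨(r x)⁻¹ * x, hr x⟩ ∈ f '' closure {x | c x = n} := ⟨_, hc n _, rfl⟩
  have h3 := image_closure_subset_closure_image hf h2
  rw [h1] at h3
  refine closure_mono ?_ h3
  rintro _ ⟨a, ha, rfl⟩
  have e : (⟨(r (f a))⁻¹ * f a, hr (f a)⟩ : H) = a := by
    apply Subtype.ext
    simp only [f]
    rw [hrr]
    simp
  change c ⟨(r (f a))⁻¹ * f a, hr (f a)⟩ = n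
  rw [e]
  exact ha

/-- every group topology that is not `OmegaRes` has a countable neighbourhood of `1` -/
def OGood (G : Type*) [Group G] : Prop :=
  ∀ [TopologicalSpace G] [IsTopologicalGroup G], ¬ OmegaRes G → ∃ U ∈ 𝓝 (1:G), U.Countable

theorem ogood_of_extension {G : Type*} [Group G] (N : Subgroup G) [N.Normal] (hN : OGood N)
    (hQ : OGood (G ⧸ N)) : OGood G := by
  intro _ _ hres
  have hNres : ¬ OmegaRes N := fun h => hres (omega_of_subgroup N h)
  have hQres : ¬ OmegaRes (G ⧸ N) := by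
    rintro ⟨c, hc⟩
    apply hres
    have ho : IsOpenMap (QuotientGroup.mk : G → G ⧸ N) := QuotientGroup.isOpenMap_coe
    exact ⟨fun x => c (QuotientGroup.mk x), fun n => (hc n).preimage ho⟩
  obtain ⟨U, hU, hUc⟩ := hN hNres
  obtain ⟨U', hU', hUc'⟩ := hQ hQres
  rw [nhds_subtype_eq_comap, mem_comap] at hU
  obtain ⟨S, hS, hSU⟩ := hU
  have hSc : (S ∩ (N : Set G)).Countable := by
    refine (hUc.image Subtype.val).mono ?_
    rintro x ⟨h1, h2⟩
    exact ⟨⟨x, h2⟩, hSU h1, rfl⟩
  obtain ⟨V, hV, hVS⟩ := exists_div_nhds hS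
  have hUQ : (QuotientGroup.mk ⁻¹' U' : Set G) ∈ 𝓝 (1:G) := by
    have : ContinuousAt (QuotientGroup.mk : G → G ⧸ N) 1 := QuotientGroup.continuous_mk.continuousAt
    exact this.preimage_mem_nhds hU'
  refine ⟨V ∩ QuotientGroup.mk ⁻¹' U', inter_mem hV hUQ, ?_⟩
  have hcov : V ∩ QuotientGroup.mk ⁻¹' U' ⊆ ⋃ c ∈ U', {x | x ∈ V ∧ (x : G ⧸ N) = c} := by
    rintro x ⟨h1, h2⟩
    simp only [mem_iUnion]
    exact ⟨_, h2, h1, rfl⟩
  refine (hUc'.biUnion ?_).mono hcov
  intro c _
  rcases Set.eq_empty_or_nonempty {x | x ∈ V ∧ (x : G ⧸ N) = c} with he | ⟨x0, hx0, hx0c⟩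
  · rw [he]; exact countable_empty
  · refine ((hSc.image (fun s => x0 * s))).mono ?_
    rintro x ⟨h1, h2⟩
    refine ⟨x0⁻¹ * x, ⟨hVS _ hx0 _ h1, ?_⟩, by simp⟩
    exact QuotientGroup.eq.1 (by rw [hx0c, h2])

theorem ogood_of_index {G : Type*} [Group G] (H : Subgroup G) [Countable (G ⧸ H)] (hH : OGood H) :
    OGood G := by
  intro _ _ hres
  have hHres : ¬ OmegaRes H := fun h => hres (omega_of_subgroup H h)
  obtain ⟨U, hU, hUc⟩ := hH hHres
  rw [nhds_subtype_eq_comap, mem_comap] at hU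
  obtain ⟨S, hS, hSU⟩ := hU
  have hSc : (S ∩ (H : Set G)).Countable := by
    refine (hUc.image Subtype.val).mono ?_
    rintro x ⟨h1, h2⟩
    exact ⟨⟨x, h2⟩, hSU h1, rfl⟩
  obtain ⟨V, hV, hVS⟩ := exists_div_nhds hS
  refine ⟨V, hV, ?_⟩
  have hcov : V ⊆ ⋃ c : G ⧸ H, {x | x ∈ V ∧ (x : G ⧸ H) = c} := by
    intro x h1
    simp only [mem_iUnion]
    exact ⟨_, h1, rfl⟩
  refine (countable_iUnion ?_).mono hcov
  intro c
  rcases Set.eq_empty_or_nonempty {x | x ∈ V ∧ (x : G ⧸ H) = c} with he | ⟨x0, hx0, hx0c⟩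
  · rw [he]; exact countable_empty
  · refine ((hSc.image (fun s => x0 * s))).mono ?_
    rintro x ⟨h1, h2⟩
    refine ⟨x0⁻¹ * x, ⟨hVS _ hx0 _ h1, ?_⟩, by simp⟩
    exact QuotientGroup.eq.1 (by rw [hx0c, h2])

/-- a discrete intermediate value principle -/
lemma exists_value (a : ℕ → ℕ) (n : ℕ) (K : ℕ) (hstep : ∀ k < K, a (k+1) ≤ a k + 1)
    (h0 : a 0 ≤ n) (hK : n ≤ a K) : ∃ k ≤ K, a k = n := by
  induction K with
  | zero => exact ⟨0, le_rfl, by omega⟩
  | succ K ih =>
    by_cases h : n ≤ a K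
    · obtain ⟨k, hk, hk2⟩ := ih (fun k hk => hstep k (by omega)) h
      exact ⟨k, by omega, hk2⟩
    · have := hstep K (by omega)
      exact ⟨K+1, le_rfl, by omega⟩

lemma exists_val (L j : ℕ) : ∃ n, L ≤ n ∧ n ≤ L + 2 ^ (j+2) ∧ padicValNat 2 n = j := by
  have hpos : 0 < 2 ^ (j+1) := by positivity
  refine ⟨2 ^ j * (2 * (L / 2 ^ (j+1) + 1) + 1), ?_, ?_, ?_⟩
  · have h1 := Nat.div_add_mod L (2 ^ (j+1))
    have h2 := Nat.mod_lt L hpos
    have h3 : 2 ^ (j+1) = 2 * 2 ^ j := by ring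
    rw [h3] at h1 h2 ⊢
    nlinarith
  · have h1 := Nat.div_add_mod L (2 ^ (j+1))
    have h3 : 2 ^ (j+1) = 2 * 2 ^ j := by ring
    have h4 : 2 ^ (j+2) = 4 * 2 ^ j := by ring
    rw [h3] at h1 ⊢
    rw [h4]
    nlinarith [Nat.zero_le (L % (2 * 2 ^ j))]
  · have : Fact (Nat.Prime 2) := ⟨Nat.prime_two⟩
    rw [padicValNat.mul (by positivity) (by positivity), padicValNat.prime_pow,
      padicValNat.eq_zero_of_not_dvd (by omega)]
    rfl

/-- subgroups of restricted direct products of countable groups -/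
theorem ogood_of_restricted {G : Type*} [Group G] {ι : Type*} {D : ι → Type*} [∀ i, Group (D i)]
    [∀ i, Countable (D i)] (φ : G →* (∀ i, D i)) (hφ : Function.Injective φ)
    (hfin : ∀ x, {i | φ x i ≠ 1}.Finite) : OGood G := by
  classical
  intro _ _ hres
  by_contra hunc
  push Not at hunc
  set s : G → ℕ := fun x => (hfin x).toFinset.card with hs
  apply hres
  refine ⟨fun x => padicValNat 2 (Nat.log 2 (s x)), ?_⟩
  intro j x
  rw [mem_closure_iff_frequently, ← map_mul_left_nhds_one x]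
  change ∃ᶠ y in 𝓝 (1:G), padicValNat 2 (Nat.log 2 (s (x * y))) = j
  rw [Filter.frequently_iff]
  intro U hU
  set K := 2 ^ (2 ^ (j+2)) * (s x + 1) with hKdef
  obtain ⟨V, hV, hVs⟩ := exists_small_products (K+1) _ hU
  obtain ⟨V', hV', hVV⟩ := exists_div_nhds hV
  -- the common size
  obtain ⟨t, ht1, ht⟩ : ∃ t, 1 ≤ t ∧ ∀ C : Set ι, C.Countable → ∃ y ∈ V, s y = t ∧
      ∀ i ∈ C, φ y i = 1 := by
    by_contra hcon
    push Not at hcon
    choose! C hC hC2 using hcon
    have hCc : (⋃ t ∈ {t | 1 ≤ t}, C t).Countable :=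
      (Set.to_countable _).biUnion (fun t ht => hC t ht)
    set CC := ⋃ t ∈ {t | 1 ≤ t}, C t with hCC
    have : Countable CC := hCc.to_subtype
    have hfin2 : ∀ x, {p : Σ i : CC, D i | φ x p.1 = p.2 ∧ p.2 ≠ 1}.Finite := by
      intro x
      have : InjOn (fun p : Σ i : CC, D i => (p.1 : ι)) {p : Σ i : CC, D i | φ x p.1 = p.2 ∧ p.2 ≠ 1} := by
        rintro ⟨i, a⟩ ⟨h1, -⟩ ⟨j, b⟩ ⟨h2, -⟩ hij
        have hij' : i = j := Subtype.ext hij
        subst hij'
        simp only at h1 h2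
        rw [← h1, ← h2]
      refine Set.Finite.of_finite_image ((hfin x).subset ?_) this
      rintro _ ⟨⟨i, a⟩, ⟨h1, h2⟩, rfl⟩
      simp only at h1 h2
      simp only [Set.mem_ofPred_eq]
      rw [h1]; exact h2
    let code : G → Finset (Σ i : CC, D i) := fun x => (hfin2 x).toFinset
    have hni : ¬ InjOn code V' := by
      intro hinj
      exact hunc V' hV' (Set.MapsTo.countable_of_injOn (t := univ) (fun x _ => mem_univ _) hinj
        countable_univ)
    simp only [InjOn] at hni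
    push Not at hni
    obtain ⟨a, ha, b, hb, hab, hne⟩ := hni
    have hcode : ∀ i ∈ CC, φ a i = φ b i := by
      intro i hi
      have h1 : ∀ p : Σ i : CC, D i, (φ a p.1 = p.2 ∧ p.2 ≠ 1) ↔ (φ b p.1 = p.2 ∧ p.2 ≠ 1) := by
        intro p
        have h2 : p ∈ code a ↔ p ∈ code b := by rw [hab]
        simpa [code] using h2
      by_cases h3 : φ a i = 1
      · by_cases h4 : φ b i = 1
        · rw [h3, h4]
        · exact ((h1 ⟨⟨i, hi⟩, φ b i⟩).2 ⟨rfl, h4⟩).1
      · exact ((h1 ⟨⟨i, hi⟩, φ a i⟩).1 ⟨rfl, h3⟩).1.symm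
    have hy : a⁻¹ * b ∈ V := hVV _ ha _ hb
    have hy1 : a⁻¹ * b ≠ 1 := by
      intro h
      exact hne (inv_mul_eq_one.1 h)
    have hyC : ∀ i ∈ CC, φ (a⁻¹ * b) i = 1 := by
      intro i hi
      rw [map_mul, map_inv, Pi.mul_apply, Pi.inv_apply, hcode i hi]
      simp
    have hsy : 1 ≤ s (a⁻¹ * b) := by
      rw [Nat.one_le_iff_ne_zero]
      intro h0
      apply hy1
      apply hφ
      rw [map_one]
      funext i
      by_contra hi
      have h5 : i ∈ (hfin (a⁻¹ * b)).toFinset := by simpa using hi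
      rw [Finset.card_eq_zero.1 h0] at h5
      simp at h5
    obtain ⟨i, hi, hi2⟩ := hC2 (s (a⁻¹ * b)) hsy _ hy rfl
    exact hi2 (hyC i (by simp only [hCC, mem_iUnion]; exact ⟨_, hsy, hi⟩))
  -- sizes of products
  have hsize : ∀ k ≤ K + 1, ∃ l : List G, l.length = k ∧ (∀ y ∈ l, y ∈ V) ∧
      s (x * l.prod) = s x + k * t := by
    intro k
    induction k with
    | zero => intro _; exact ⟨[], rfl, by simp, by simp⟩
    | succ k ih =>
      intro hk
      obtain ⟨l, hl1, hl2, hl3⟩ := ih (by omega)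
      obtain ⟨y, hy, hyt, hyC⟩ := ht {i | φ (x * l.prod) i ≠ 1} (hfin _).countable
      refine ⟨l ++ [y], by simp [hl1], ?_, ?_⟩
      · intro z hz
        rcases List.mem_append.1 hz with hz | hz
        · exact hl2 z hz
        · rw [List.mem_singleton.1 hz]; exact hy
      · have h1 : (hfin (x * (l ++ [y]).prod)).toFinset =
            (hfin (x * l.prod)).toFinset ∪ (hfin y).toFinset := by
          ext i
          simp only [Set.Finite.mem_toFinset, Finset.mem_union, Set.mem_ofPred_eq]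
          rw [List.prod_append, List.prod_singleton, ← mul_assoc, map_mul, Pi.mul_apply]
          by_cases h2 : φ (x * l.prod) i = 1
          · rw [h2]; simp
          · rw [hyC i h2]; simp
        have h2 : Disjoint (hfin (x * l.prod)).toFinset (hfin y).toFinset := by
          rw [Finset.disjoint_left]
          intro i hi hi2
          simp only [Set.Finite.mem_toFinset, Set.mem_ofPred_eq] at hi hi2
          exact hi2 (hyC i hi)
        have h3 : s (x * (l ++ [y]).prod) = s (x * l.prod) + s y := by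
          simp only [hs]
          rw [h1, Finset.card_union_of_disjoint h2]
        rw [h3, hl3, hyt]
        ring
  obtain ⟨n, hn1, hn2, hn3⟩ := exists_val (Nat.log 2 (s x + 1 * t)) j
  obtain ⟨k, hk, hk2⟩ := exists_value (fun k => Nat.log 2 (s x + (k+1) * t)) n K (by
      intro k hk
      have h6 : s x + (k+1+1) * t ≤ (s x + (k+1) * t) * 2 := by nlinarith
      have h7 : Nat.log 2 ((s x + (k+1) * t) * 2) = Nat.log 2 (s x + (k+1) * t) + 1 :=
        Nat.log_mul_base (by norm_num) (by nlinarith)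
      rw [← h7]
      exact Nat.log_mono_right h6) (by simpa using hn1) (by
      refine le_trans hn2 ?_
      have h8 : ∀ M m, m ≠ 0 → Nat.log 2 (m * 2 ^ M) = Nat.log 2 m + M := by
        intro M m hm
        induction M with
        | zero => simp
        | succ M ih =>
          rw [pow_succ, ← mul_assoc, Nat.log_mul_base (by norm_num) (by positivity), ih]
          ring
      rw [← h8 _ _ (by omega)]
      apply Nat.log_mono_right
      rw [hKdef]
      have h9 : 0 < 2 ^ (2 ^ (j+2)) := by positivity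
      set M := 2 ^ (2 ^ (j+2)) with hM
      have h10 : s x + 1 * t ≤ (s x + 1) * t := by nlinarith
      calc (s x + 1 * t) * M ≤ ((s x + 1) * t) * M := Nat.mul_le_mul_right _ h10
        _ ≤ s x + (M * (s x + 1) + 1) * t := by nlinarith)
  obtain ⟨l, hl1, hl2, hl3⟩ := hsize (k+1) (by omega)
  refine ⟨l.prod, hVs l (by omega) hl2, ?_⟩
  rw [hl3, hk2, hn3]

theorem ogood_of_tame (G : Type) [i : Group G] (h : Tame G) : OGood G := by
  induction h with
  | restricted G ι D φ hφ hfin => exact @ogood_of_restricted G _ ι D _ _ φ hφ hfin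
  | extension G N hN hQ ihN ihQ => exact @ogood_of_extension G _ N _ ihN ihQ
  | index G H hH ih => exact @ogood_of_index G _ H _ ih

end H473
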