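import Mathlib

set_option autoImplicit false

/-!
# Realising an action on a countable linear order on the real line
-/

namespace Pool.Agent.Helper473.Realise

/-- the extension of an order automorphism of `ℚ` to the reals, as a function -/
noncomputable def ext (f : ℚ ≃o ℚ) (x : ℝ) : ℝ := sSup {y : ℝ | ∃ q : ℚ, (q : ℝ) ≤ x ∧ y = (f q : ℝ)}

theorem ext_nonempty (f : ℚ ≃o ℚ) (x : ℝ) : {y : ℝ | ∃ q : ℚ, (q : ℝ) ≤ x ∧ y = (f q : ℝ)}.Nonempty := by
  obtain ⟨q, hq⟩ := exists_rat_lt x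
  exact ⟨_, q, hq.le, rfl⟩

theorem ext_bdd (f : ℚ ≃o ℚ) (x : ℝ) : BddAbove {y : ℝ | ∃ q : ℚ, (q : ℝ) ≤ x ∧ y = (f q : ℝ)} := by
  obtain ⟨r, hr⟩ := exists_rat_gt x
  refine ⟨(f r : ℝ), ?_⟩
  rintro y ⟨q, hq, rfl⟩
  have : q ≤ r := by exact_mod_cast (hq.trans hr.le)
  exact_mod_cast f.monotone this

theorem ext_lt_of (f : ℚ ≃o ℚ) (x : ℝ) (r : ℚ) (h : x < r) : ext f x ≤ f r := by
  apply csSup_le (ext_nonempty f x)
  rintro y ⟨q, hq, rfl⟩
  have : q ≤ r := by exact_mod_cast (hq.trans h.le)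
  exact_mod_cast f.monotone this

theorem le_ext_of (f : ℚ ≃o ℚ) (x : ℝ) (r : ℚ) (h : (r : ℝ) ≤ x) : (f r : ℝ) ≤ ext f x :=
  le_csSup (ext_bdd f x) ⟨r, h, rfl⟩

theorem ext_rat (f : ℚ ≃o ℚ) (q : ℚ) : ext f q = f q := by
  apply le_antisymm
  · apply csSup_le (ext_nonempty f q)
    rintro y ⟨r, hr, rfl⟩
    have : r ≤ q := by exact_mod_cast hr
    exact_mod_cast f.monotone this
  · exact le_ext_of f q q le_rfl

theorem ext_strictMono (f : ℚ ≃o ℚ) : StrictMono (ext f) := by
  intro x y hxy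
  obtain ⟨p, hp1, hp2⟩ := exists_rat_btwn hxy
  obtain ⟨q, hq1, hq2⟩ := exists_rat_btwn hp2
  have h1 : ext f x ≤ f p := ext_lt_of f x p hp1
  have h2 : (f p : ℝ) < f q := by
    have : p < q := by exact_mod_cast hq1
    exact_mod_cast f.strictMono this
  have h3 : (f q : ℝ) ≤ ext f y := le_ext_of f y q hq2.le
  linarith

theorem ext_mul (f g : ℚ ≃o ℚ) (x : ℝ) : ext (f * g) x = ext f (ext g x) := by
  apply le_antisymm
  · apply csSup_le (ext_nonempty _ x)
    rintro y ⟨q, hq, rfl⟩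
    have h1 : ((g q : ℚ) : ℝ) ≤ ext g x := le_ext_of g x q hq
    exact le_ext_of f _ _ h1
  · by_contra hlt
    push Not at hlt
    obtain ⟨r, hr1, hr2⟩ := exists_rat_btwn hlt
    -- `r < ext f (ext g x)`, so `f⁻¹ r < ext g x`
    have h1 : ((f.symm r : ℚ) : ℝ) < ext g x := by
      by_contra h
      push Not at h
      rcases h.lt_or_eq with h | h
      · have := ext_lt_of f _ _ h
        rw [OrderIso.apply_symm_apply] at this
        linarith
      · rw [h, ext_rat, OrderIso.apply_symm_apply] at hr2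
        exact lt_irrefl _ hr2
    obtain ⟨s, hs1, hs2⟩ := exists_rat_btwn h1
    have h2 : ((g.symm s : ℚ) : ℝ) ≤ x := by
      by_contra h
      push Not at h
      have := ext_lt_of g _ _ h
      rw [OrderIso.apply_symm_apply] at this
      linarith
    have h3 := le_ext_of (f * g) x _ h2
    have h4 : (f * g) (g.symm s) = f s := by
      show f (g (g.symm s)) = f s
      rw [OrderIso.apply_symm_apply]
    rw [h4] at h3
    have h5 : r < f s := by
      have : f.symm r < s := by exact_mod_cast hs1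
      have := f.strictMono this
      rwa [OrderIso.apply_symm_apply] at this
    have h6 : (r : ℝ) < f s := by exact_mod_cast h5
    linarith

theorem ext_one (x : ℝ) : ext 1 x = x := by
  apply le_antisymm
  · apply csSup_le (ext_nonempty _ x)
    rintro y ⟨q, hq, rfl⟩
    exact hq
  · by_contra h
    push Not at h
    obtain ⟨r, hr1, hr2⟩ := exists_rat_btwn h
    have := le_ext_of 1 x r hr2.le
    have h2 : ((1 : ℚ ≃o ℚ) r : ℝ) = r := rfl
    rw [h2] at this
    linarith

/-- the extension of an order automorphism of `ℚ` to the reals -/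
noncomputable def extIso (f : ℚ ≃o ℚ) : ℝ ≃o ℝ where
  toFun := ext f
  invFun := ext f⁻¹
  left_inv := fun x => by rw [← ext_mul, inv_mul_cancel, ext_one]
  right_inv := fun x => by rw [← ext_mul, mul_inv_cancel, ext_one]
  map_rel_iff' := by
    intro a b
    exact (ext_strictMono f).le_iff_le

/-- extension of automorphisms as a group homomorphism -/
noncomputable def extHom : (ℚ ≃o ℚ) →* (ℝ ≃o ℝ) where
  toFun := extIso
  map_one' := by
    ext x
    exact ext_one x
  map_mul' := by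
    intro f g
    ext x
    exact ext_mul f g x

theorem extHom_rat (f : ℚ ≃o ℚ) (q : ℚ) : extHom f (q : ℝ) = f q := ext_rat f q

/-- the automorphism of `Ω ×ₗ ℚ` induced by an automorphism of `Ω` -/
def lexIso {Ω : Type*} [LinearOrder Ω] (f : Ω ≃o Ω) : (Ω ×ₗ ℚ) ≃o (Ω ×ₗ ℚ) where
  toFun := fun x => toLex (f (ofLex x).1, (ofLex x).2)
  invFun := fun x => toLex (f.symm (ofLex x).1, (ofLex x).2)
  left_inv := by
    intro x
    simp
  right_inv := by
    intro x
    simp
  map_rel_iff' := by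
    intro a b
    simp only [Equiv.coe_fn_mk, Prod.Lex.le_iff]
    simp [f.lt_iff_lt, f.injective.eq_iff]

def lexHom {Ω : Type*} [LinearOrder Ω] : (Ω ≃o Ω) →* ((Ω ×ₗ ℚ) ≃o (Ω ×ₗ ℚ)) where
  toFun := lexIso
  map_one' := by
    ext x
    all_goals rfl
  map_mul' := by
    intro f g
    ext x
    all_goals rfl

/-- conjugation by an order isomorphism -/
def conjHom {A B : Type*} [LinearOrder A] [LinearOrder B] (e : A ≃o B) : (A ≃o A) →* (B ≃o B) where
  toFun := fun f => (e.symm.trans f).trans e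
  map_one' := by
    ext x
    simp
  map_mul' := by
    intro f g
    ext x
    simp

theorem realise {Γ : Type*} [Group Γ] {Ω : Type*} [LinearOrder Ω] [Countable Ω] [Nonempty Ω]
    [NoMaxOrder Ω] [NoMinOrder Ω] (act : Γ →* (Ω ≃o Ω)) :
    ∃ (ρ : Γ →* (ℝ ≃o ℝ)) (ι : Ω → ℝ), StrictMono ι ∧ (∀ g ω, ρ g (ι ω) = ι (act g ω)) ∧
      (∀ t, ∃ ω, t < ι ω) ∧ (∀ t, ∃ ω, ι ω < t) := by
  classical
  have : Countable (Ω ×ₗ ℚ) := inferInstanceAs (Countable (Ω × ℚ))
  have : Nonempty (Ω ×ₗ ℚ) := inferInstanceAs (Nonempty (Ω × ℚ))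
  obtain ⟨e⟩ : Nonempty ((Ω ×ₗ ℚ) ≃o ℚ) := Order.iso_of_countable_dense _ _
  refine ⟨extHom.comp ((conjHom e).comp (lexHom.comp act)), fun ω => ((e (toLex (ω, 0)) : ℚ) : ℝ),
    ?_, ?_, ?_, ?_⟩
  · intro a b hab
    have : e (toLex (a, 0)) < e (toLex (b, 0)) := by
      apply e.strictMono
      rw [Prod.Lex.lt_iff]
      exact Or.inl hab
    exact Rat.cast_lt.2 this
  · intro g ω
    show extHom _ _ = _
    rw [extHom_rat]
    congr 1
    show e (lexIso (act g) (e.symm (e (toLex (ω, 0))))) = _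
    rw [OrderIso.symm_apply_apply]
    rfl
  · intro t
    obtain ⟨q, hq⟩ := exists_rat_gt t
    obtain ⟨ω', hω'⟩ := exists_gt (ofLex (e.symm q)).1
    refine ⟨ω', hq.trans ?_⟩
    have : q < e (toLex (ω', 0)) := by
      rw [← OrderIso.symm_apply_lt]
      rw [Prod.Lex.lt_iff]
      exact Or.inl hω'
    exact Rat.cast_lt.2 this
  · intro t
    obtain ⟨q, hq⟩ := exists_rat_lt t
    obtain ⟨ω', hω'⟩ := exists_lt (ofLex (e.symm q)).1
    refine ⟨ω', lt_trans ?_ hq⟩
    have : e (toLex (ω', 0)) < q := by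
      rw [← OrderIso.lt_symm_apply]
      rw [Prod.Lex.lt_iff]
      exact Or.inl hω'
    exact Rat.cast_lt.2 this

end Pool.Agent.Helper473.Realise
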